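import Pool.Agent.Lib.MP_0da313_nt.NC.J
import Pool.Agent.Lib.MP_0da313_nt.TC.Defs

set_option autoImplicit false

/-!
Project NC, section G: Parseval on a grid, the arcs, and the version of the major arcs with the rough
model `Lw` of `TC/Defs.lean`.
-/

namespace Pool.Agent.NC.G

open Finset Filter
open Pool.Agent.MP89da58 (tri kapD)
open Pool.Agent.Lib.MP_0da313_nt (W U)
open Pool.Agent.CH (thP)
open Pool.Agent.SP80 (ex)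
open Pool.Agent.GC (HH tz ES Pm prs dv)
open Pool.Agent.TC (Lw)

/-! ### The rough model -/

/-- The two models in a residue class. -/
def R_hc : Prop := ∀ A B : ℕ, ∃ K0 : ℕ, ∀ᶠ X : ℝ in atTop, ∀ w k : ℕ, Pm X (1 / 100) K0 w k →
  ∀ K g s : ℕ, 1 ≤ K → (K : ℝ) ≤ X ^ (1 / 50 : ℝ) → 1 ≤ g → (g : ℝ) ≤ (Real.log X) ^ B →
  (∀ p : ℕ, p.Prime → p ∣ K → p ∣ s → p ∣ g) →
  ∑ t ∈ (Icc 1 ⌊2 * X⌋₊).filter (fun t => t ≡ s [MOD K]), |HH w k t - Lw w t|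
    ≤ X / K / (Real.log X) ^ A

/-- [NG hc] (uses GC M tl) Proof: as [NC nc] (`NC/J.lean`) and `TC/E/P/hl.lean`: `Lw w t = κ⁻¹ W (dv t) (prs w)`, `κ = kapD w`, so
`0 ≤ HH - Lw ≤ κ⁻¹ E (dv t) (prs w) (k+1) = κ⁻¹ ∑_S [∏ S ∣ t]` (`W_le_U`, `U_le_W_add_E`, `k` even), `S` the sets of `k + 1` primes
`≤ w`. For `m = ∏ S`, if some `t ≡ s (K)` is divisible by `m` then every common prime of `m` and `K` divides `s`, hence `g`, so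
`gcd(m, K) ∣ g`, and the `t ≡ s (K)` with `m ∣ t` form one class modulo `lcm(K, m) ≥ K m/L^B`: at most `2X L^B/(K m) + 1` of them.
`∑_S 1/m ≤ 2 e^(-k/2)` (`R_tl`, `c = 1`), at most `w^(k+1) ≤ X^(1/100)` sets `S`, `κ⁻¹ ≤ 1000 L`:
`≤ 1000 L ((2X L^B/K) 2 e^(-k/2) + X^(1/100)) ≤ (X/K)/L^A` for `K0 ≥ 2 (A + B + 4)`. -/
def S_hc : Prop := GC.M.R_tl → R_hc

/-- The exponential sum with the rough model. -/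
noncomputable def EL (w : ℕ) (X : ℝ) (K s : ℕ) (β : ℝ) : ℂ :=
  ∑ t ∈ (Icc 1 ⌊2 * X⌋₊).filter (fun t => t ≡ s [MOD K]),
    (((thP t - Lw w t) * tz (t / X) : ℝ) : ℂ) * ex (β * t)

/-- The major arcs with the rough model. -/
def R_mjL : Prop := ∀ d c0 A b B : ℕ, 2 ≤ d → 1 ≤ c0 → ∃ K0 : ℕ, ∀ᶠ X : ℝ in atTop, ∀ w k : ℕ,
  Pm X (1 / 100) K0 w k → ∃ E : ℕ → ℝ, (∀ q, 0 ≤ E q) ∧
    (∀ (q l s : ℕ) (β : ℝ), Squarefree q → (q : ℝ) ≤ X ^ (1 / (100 * d : ℝ)) → 1 ≤ l →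
      (l : ℝ) ≤ (Real.log X) ^ B → s.Coprime q → |β| ≤ (Real.log X) ^ B / X →
      ‖EL w X (c0 * l * q ^ d) s β‖ ≤ E q) ∧
    ∑ q ∈ (Icc 1 ⌊X ^ (1 / (100 * d : ℝ))⌋₊).filter Squarefree,
      (b : ℝ) ^ q.primeFactors.card * ((q : ℝ) ^ (d - 1) * E q) ≤ X / (Real.log X) ^ A

/-- [NG mjL] (uses NC J maj, hc) Proof: `R_maj` with `A + 1`, and `E' q = E q + (X/q^d)/L^(A+b+2)`: `‖EL - ES‖ ≤ ∑ |HH - Lw|` over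
the class (`0 ≤ tz ≤ 1`), at most `(X/K)/L^(A+b+2)` by `R_hc` with `K = c0 l q^d ≤ X^(1/50)`, `g = c0 l ≤ L^(B+1)` (a common prime of
`s` and `K` does not divide `q`, so it divides `c0 l`). `∑ b^ω(q) q^(d-1) X/q^d ≤ X (1 + L)^b`. `K0` the maximum of the two and
`1` (`Pm` is monotone in `K0` for large `X`). -/
def S_mjL : Prop := J.R_maj → R_hc → R_mjL

/-! ### Parseval -/

/-- The coefficient: the sum over the pairs `k = a n + g x`. -/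
noncomputable def Rn (a : ℤ) (g : ℕ → ℤ) (Sk Sx : Finset ℕ) (F h : ℕ → ℝ) (n : ℕ) : ℝ :=
  ∑ x ∈ Sx, ∑ k ∈ Sk, if (k : ℤ) = a * (n : ℤ) + g x then F k * h x else 0

/-- Bessel's inequality on the grid `t/L`. -/
def R_grd : Prop := ∀ (a : ℤ) (g : ℕ → ℤ) (Sk Sx Sn : Finset ℕ) (F h : ℕ → ℝ) (L : ℕ), a ≠ 0 → 1 ≤ L →
  (∀ k ∈ Sk, ∀ x ∈ Sx, ∀ n ∈ Sn, |(k : ℤ) - (a * n + g x)| < L) →
  (∀ n ∈ Sn, ∀ n' ∈ Sn, |a * ((n : ℤ) - n')| < L) →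
  ∑ n ∈ Sn, Rn a g Sk Sx F h n ^ 2 ≤ 1 / (L : ℝ) * ∑ t ∈ range L,
    ‖∑ k ∈ Sk, (F k : ℂ) * ex ((t : ℝ) / L * k)‖ ^ 2 *
      ‖∑ x ∈ Sx, (h x : ℂ) * ex (-((t : ℝ) / L) * (g x : ℝ))‖ ^ 2

/-- [NG grd] Proof: compare `conv_sq` in `TC/E/M/Par.lean` and `APP.B.p_par`. For an integer `j`, `(1/L) ∑_{t<L} ex(t j/L)` is `1` if
`L ∣ j`, else `0`. Let `P t` be the product of the two sums. For `n ∈ Sn`: `Rn n = (1/L) ∑_t P t ex(-t a n/L)` (first hypothesis).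
So `∑ Rn^2 = (1/L) ∑_t P t * conj(∑_n Rn n ex(t a n/L))`, at most `((1/L) ∑ |P|^2)^(1/2) ((1/L) ∑_t |∑_n Rn n ex(t a n/L)|^2)^(1/2)`,
and the second factor is `(∑ Rn^2)^(1/2)` by the second hypothesis (`a ≠ 0`). -/
def S_grd : Prop := R_grd

/-- One family of arcs: the `t/L` near the fractions with denominator `Q`. -/
def R_arc : Prop := ∀ (Sk : Finset ℕ) (F : ℕ → ℝ) (L Q q r : ℕ) (ρ M : ℝ) (T : Finset ℕ), 1 ≤ L →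
  1 ≤ Q → Q ∣ L → q ∣ Q → 0 ≤ ρ → 0 ≤ M → (∀ k ∈ Sk, k ≡ r [MOD q]) →
  (∀ (s : ℕ) (β : ℝ), |β| ≤ ρ →
    ‖∑ k ∈ Sk.filter (fun k => k ≡ s [MOD Q]), (F k : ℂ) * ex (β * k)‖ ≤ M) →
  (∀ t ∈ T, t < L ∧ ∃ b : ℤ, |(t : ℝ) / L - b / Q| ≤ ρ) →
  1 / (L : ℝ) * ∑ t ∈ T, ‖∑ k ∈ Sk, (F k : ℂ) * ex ((t : ℝ) / L * k)‖ ^ 2 ≤
    (2 * ρ + 1 / L) * (Q * (Q / q) * M ^ 2)

/-- [NG arc] Proof: `D = L/Q`. For `t ∈ T` with `b`: `u = t - b D` is an integer with `|u| ≤ ρ L`, and `t ≡ u` modulo `D`. So `T` is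
covered by the sets `T_u = {t < L : t ≡ u (D)}`, `u ∈ ℤ`, `|u| ≤ ρ L` (at most `2 ρ L + 1` values). The elements of `T_u` are
congruent modulo `L` to `u + b D`, `0 ≤ b < Q`, and the exponential sum at `t/L` has period `L` in `t`, so
`∑_{t ∈ T_u} ‖..‖^2 = ∑_{b<Q} ‖∑_k F k ex(u k/L) ex(b k/Q)‖^2 = Q ∑_{s<Q} ‖∑_{k ≡ s (Q)} F k ex(u k/L)‖^2` (orthogonality of
`ex(b k/Q)`, `b < Q`). Only the `s ≡ r (q)` occur (`q ∣ Q`), there are `Q/q` of them, and each term is at most `M^2`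
(`|u/L| ≤ ρ`). -/
def S_arc : Prop := R_arc

/-- The split into major and minor arcs. -/
def R_spl : Prop := ∀ (a : ℤ) (g : ℕ → ℤ) (Sk Sx Sn : Finset ℕ) (F h : ℕ → ℝ) (q r T : ℕ)
  (Q : ℕ → ℕ) (ρ ε G0 M : ℝ), a ≠ 0 → 1 ≤ q → 0 < ρ → 0 ≤ ε → 0 ≤ G0 → 0 ≤ M →
  (∀ l ∈ Icc 1 T, 1 ≤ Q l ∧ q ∣ Q l) → (∀ k ∈ Sk, k ≡ r [MOD q]) →
  (∀ α : ℝ, ‖∑ x ∈ Sx, (h x : ℂ) * ex (-α * (g x : ℝ))‖ ≤ G0) →
  (∀ α : ℝ, ‖∑ x ∈ Sx, (h x : ℂ) * ex (-α * (g x : ℝ))‖ ≤ ε ∨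
    ∃ l ∈ Icc 1 T, ∃ b : ℤ, |α - b / Q l| ≤ ρ) →
  (∀ l ∈ Icc 1 T, ∀ (s : ℕ) (β : ℝ), |β| ≤ ρ →
    ‖∑ k ∈ Sk.filter (fun k => k ≡ s [MOD Q l]), (F k : ℂ) * ex (β * k)‖ ≤ M) →
  ∑ n ∈ Sn, Rn a g Sk Sx F h n ^ 2 ≤ ε ^ 2 * ∑ k ∈ Sk, F k ^ 2 +
    G0 ^ 2 * (3 * ρ) * ∑ l ∈ Icc 1 T, (Q l : ℝ) * (Q l / q) * M ^ 2

/-- [NG spl] (uses grd, arc) Proof: let `L` be a multiple of `∏_{l ∈ Icc 1 T} Q l`, `L ≥ 1/ρ`, and so large that the hypotheses of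
`R_grd` hold (finitely many conditions). In the sum over `t < L` of `R_grd` the `t` with `‖second sum‖ ≤ ε` (at `α = t/L`)
contribute at most `ε^2 (1/L) ∑_t ‖∑_k F k ex(t k/L)‖^2 = ε^2 ∑ F k^2` if also `L` is larger than all `k ∈ Sk` (orthogonality). The
other `t` belong to the sets `T_l` of the `t` with a `b` such that `|t/L - b/Q l| ≤ ρ`, and `R_arc` with `Q = Q l`, `2ρ + 1/L ≤ 3ρ`. -/
def S_spl : Prop := R_grd → R_arc → R_spl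

end Pool.Agent.NC.G
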