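import Pool.Agent.Lib.MP_0da313_nt.NC.Defs
import Pool.Agent.Lib.MP_0da313_nt.NC.G
import Pool.Agent.Lib.MP_0da313_nt.NC.Wy.Abel
import Pool.Agent.Lib.MP_0da313_nt.TC.E.M

set_option autoImplicit false

/-!
Project NC, section E (the analytic part): from the exponential sums of `NC/J.lean`, `NC/G.lean` and Weyl's
inequality `NC/Wy` to the interface `NC.R_EX` (`NC/Defs.lean`). `R_x` is the conclusion, `S_x` the statement to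
be proved (with the results it uses as hypotheses). `F : NC.Fam ι D d E`, `F.L n l x = F.a l * n + (F.g l)(x)`,
`F.t l = F.a l + coeff_d (F.g l) * F.s`, `F.wh N x = wd (1000 d E) ((F.s N)^(1/d)) x`, the block of `N` is
`N < n ≤ Bn E N = N + N/(1000 E)`, `Hn d N = ⌊N^(1/d)⌋₊`.
-/

namespace Pool.Agent.NC.E

open Finset Filter Polynomial
open Pool.Agent.MP89da58 (kapD tri)
open Pool.Agent.CH (thP)
open Pool.Agent.CM (wd)
open Pool.Agent.SP80 (ex)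
open Pool.Agent.TC (Lw wN)
open Pool.Agent.GC (tz Pm)
open Pool.Agent.NC (Fam Hn Bn Cq Er ErS)
open Pool.Agent.NC.G (EL Rn)

/-- The constant `d! |coeff_d g|`. -/
def cc {ι : Type} [Fintype ι] [DecidableEq ι] {D d E : ℕ} (F : Fam ι D d E) (l : ι) : ℕ :=
  d.factorial * ((F.g l).coeff d).natAbs

/-- Location of the values. -/
def R_loc : Prop := ∀ (ι : Type) [Fintype ι] [DecidableEq ι] (D d E : ℕ) (F : Fam ι D d E),
  ∀ᶠ N : ℕ in atTop, (∀ x : ℕ, 0 < x → F.wh N x ≠ 0 → x ≤ Hn d N) ∧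
    ∀ n ∈ Ioc N (Bn E N), ∀ (l : ι) (x : ℕ), 0 < x → F.wh N x ≠ 0 →
      0 < F.L n l x ∧ |(F.L n l x : ℝ) / (F.t l * N) - 1| ≤ 1 / 100

/-- [NE loc] Proof: `lam = 1000 d E`, `X = (s N)^(1/d)`. `wd lam X x = tri (lam log (x/X)) ≠ 0` implies `|lam log (x/X)| < 1`
(`x ≥ 1`), so `x^d = s N e^τ` with `|τ| ≤ d/lam = 1/(1000 E)`. First claim: `s ≤ 1/2` and `e^(1/1000) < 2`, so `x^d ≤ N`
(`Nat.le_floor`). Second claim: let `A0 = coeff_d (g l) ≠ 0` (`F.hg`, `F.hd`), `a = F.a l ≠ 0`; `t = a + A0 s`, and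
`|a| + |A0| ≤ E t` (`F.ht`), so `t ≥ 2/E > 0`. `|(g l)(x) - A0 x^d| ≤ C x^(d-1) ≤ C N^(1 - 1/d)` (sum of the other
coefficients), `|A0| |x^d - s N| ≤ |A0| s N (e^(1/(1000 E)) - 1) ≤ |A0| N/(1500 E)`, `|a n - a N| ≤ |a| N/(1000 E)`. Together
`|L - t N| ≤ (|a| + |A0|) N/(1000 E) + C N^(1 - 1/d) ≤ t N/1000 + C N^(1 - 1/d) ≤ t N/100` for large `N`. -/
def S_loc : Prop := R_loc

/-- The number of the relevant classes. -/
def R_cq : Prop := ∀ (ι : Type) [Fintype ι] [DecidableEq ι] (D d E : ℕ) (F : Fam ι D d E) (n q : ℕ),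
  F.N0 ≤ n → Squarefree q → ∀ l : ι, ((Cq F n q l).card : ℝ) ≤ (D : ℝ) ^ q.primeFactors.card

/-- [NE cq] Proof: word by word `TC/E/P/cq.lean` (degree of `G n` at most `D`, `F.hloc`, Chinese remainder theorem). -/
def S_cq : Prop := R_cq

/-! ### The minor arcs -/

/-- The exponential sum over the window. -/
noncomputable def Gh {ι : Type} [Fintype ι] [DecidableEq ι] {D d E : ℕ} (F : Fam ι D d E) (N : ℕ)
    (l : ι) (q c : ℕ) (α : ℝ) : ℂ :=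
  ∑ x ∈ (Icc 1 (Hn d N)).filter (fun x => x ≡ c [MOD q]),
    (F.wh N x : ℂ) * ex (-α * (((F.g l).eval (x : ℤ) : ℤ) : ℝ))

/-- The trivial bound and Weyl's inequality. -/
def R_gmi : Prop := ∀ (ι : Type) [Fintype ι] [DecidableEq ι] (D d E : ℕ) (F : Fam ι D d E) (l : ι)
  (A : ℕ), ∃ B : ℕ, ∀ᶠ N : ℕ in atTop, ∀ (q c : ℕ) (α : ℝ), 1 ≤ q →
  (q : ℝ) ≤ (N : ℝ) ^ (1 / (1000 * d) : ℝ) →
  ‖Gh F N l q c α‖ ≤ 2 * (N : ℝ) ^ (1 / (d : ℝ)) / q ∧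
  (‖Gh F N l q c α‖ ≤ (N : ℝ) ^ (1 / (d : ℝ)) / q / (Real.log N) ^ A ∨
    ∃ m ∈ Icc 1 ⌊(Real.log N) ^ B⌋₊, ∃ b : ℤ,
      |α - b / ((cc F l * m * q ^ d : ℕ) : ℝ)| ≤ (Real.log N) ^ B / N)

/-- [NE gmi] (uses `NC.Wy.weyl_window`, `NC/Wy/Abel.lean`) Proof: `H = Hn d N`. First claim: `0 ≤ wh ≤ 1` and at most
`H/q + 1 ≤ 2 N^(1/d)/q` terms. Let `B` be the exponent of `weyl_window` for `A + 1`; `c' = c % q`, `Y = H/q + 1` (so
`q Y ≥ H + 1 > N^(1/d)`, `Y ≤ 2 N^(1/d)/q`, and `Y ≥ N^(1/(2d))` is large); the `x ≡ c (q)` in `[1, H]` are the `c' + q y`,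
`y ∈ range Y`, which are in `[1, H]`. Let `h y = wh N (c' + q y)` for these, else `0` (`wh N x` is `0` for `x ≥ H` large and
at `x = 1`, but not at `x = 0`, as `Real.log 0 = 0`); `wh` is increasing and then decreasing with values in `[0, 1]`, so `V = 4`
works. `f = -α * (g l mapped to ℝ).comp (C c' + C q * X)`: `natDegree ≤ d`, `f.coeff d = -α A0 q^d` with
`A0 = coeff_d (g l)`. Let `θ = d! f.coeff d`, `Q = ⌊Y^d/(log Y)^B⌋₊`; Dirichlet (`Real.exists_rat_abs_sub_le_and_den_le`):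
`|θ - b/m| ≤ 1/((Q+1) m)`, `1 ≤ m ≤ Q`, `(b, m) = 1`. If `m ≥ (log Y)^B` then `weyl_window` gives
`‖Gh‖ ≤ 12 Y/(log Y)^(A+1) ≤ N^(1/d)/q/(log N)^A` (`log Y ≥ log N/(2d)`). If `m < (log Y)^B`: `θ = ∓ cc q^d α` (sign of
`A0`), so with `b' = ∓ b`: `|α - b'/(cc m q^d)| ≤ 1/((Q+1) m cc q^d) ≤ (log Y)^B/(q Y)^d ≤ (log N)^B/N`. -/
def S_gmi : Prop := R_gmi

/-! ### The mean square for a single modulus -/

/-- One modulus and one class of `n` and `x`. -/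
def R_sgq : Prop := ∀ (ι : Type) [Fintype ι] [DecidableEq ι] (D d E : ℕ) (F : Fam ι D d E) (l : ι)
  (A : ℕ), ∃ (B : ℕ) (C : ℝ), 0 ≤ C ∧ ∀ᶠ N : ℕ in atTop, ∀ (w k q ν c : ℕ) (M : ℝ),
  Pm (F.t l * N) (1 / 100) 1 w k → Squarefree q → (q : ℝ) ≤ (N : ℝ) ^ (1 / (1000 * d) : ℝ) →
  IsCoprime (q : ℤ) (F.L ν l c) → 0 ≤ M →
  (∀ (m s : ℕ) (β : ℝ), 1 ≤ m → (m : ℝ) ≤ (Real.log N) ^ B → s.Coprime q →
    |β| ≤ (Real.log N) ^ B / N → ‖EL w (F.t l * N) (cc F l * m * q ^ d) s β‖ ≤ M) →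
  ∑ n ∈ (Ioc N (Bn E N)).filter (fun n => n ≡ ν [MOD q]), |Er F N w n l q c| ≤
    C * ((N : ℝ) ^ (1 / (d : ℝ)) *
      (N * Real.log N / (q ^ 2 * (Real.log N) ^ A) + (Real.log N) ^ (2 * B) * (q ^ (d - 2) * M)))

/-- [NE sgq] (uses loc, gmi, G spl) Proof: `B` from `R_gmi` for `A`; `t = F.t l > 0`, `X = t N`, `Y = N^(1/d)`, `L = log N`,
`a = F.a l`, `g x = (F.g l)(x)`. Let `r` be the residue modulo `q` of `F.L ν l c`, coprime to `q` (`q ≥ 1`);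
`Sn` the `n ≡ ν (q)` of the block, `Sx = {x ≤ H, x ≡ c (q)}`, `h x = wh N x`, `Sk = {1 ≤ k ≤ 2X, k ≡ r (q)}`,
`F k = (thP k - Lw w k) tz(k/X)`. For `n ∈ Sn`, `x ∈ Sx` with `wh N x ≠ 0`: `k = (F.L n l x).toNat ∈ Sk`, and
`tz(k/X) = 1` (`R_loc`, `|k/X - 1| ≤ 1/100`), so `Er F N w n l q c = Rn a g Sk Sx F h n`. Apply `R_spl` with `T = ⌊L^B⌋₊`,
`Q m = cc m q^d` (`cc ≥ 1`, `d ≥ 2`), `ρ = L^B/N`, `ε = Y/q/L^A`, `G0 = 2Y/q`; for `m ≤ T` and `s` the sum over the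
`k ∈ Sk`, `k ≡ s (Q m)` is `EL w X (Q m) s β` if `s ≡ r (q)` (then `s` is coprime to `q`), else it is `0`. `∑ F k^2 ≤ C1 (N/q) L^2`:
at most `2X/q + 1` terms, `0 ≤ thP k ≤ log (2X)`, `0 ≤ Lw ≤ (kapD w)⁻¹ ≤ 2000 L` (see `TC/E/P/hl.lean`), `0 ≤ tz ≤ 1`. So
`∑_{Sn} Er^2 ≤ C2 ((Y^2/q^2) L^(-2A) (N/q) L^2 + (Y^2/q^2) (L^B/N) L^(3B) q^(2d-1) M^2)`, and by Cauchy with
`|Sn| ≤ N/q + 1 ≤ 2N/q`: `∑ |Er| ≤ (2N/q)^(1/2) (∑ Er^2)^(1/2)`, `(x + y)^(1/2) ≤ x^(1/2) + y^(1/2)`. -/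
def S_sgq : Prop := R_loc → R_gmi → G.R_spl → R_sgq

/-- One modulus. -/
def R_qs : Prop := ∀ (ι : Type) [Fintype ι] [DecidableEq ι] (D d E : ℕ) (F : Fam ι D d E) (l : ι)
  (A : ℕ), ∃ (B : ℕ) (C : ℝ), 0 ≤ C ∧ ∀ᶠ N : ℕ in atTop, ∀ (w k q : ℕ) (M : ℝ),
  Pm (F.t l * N) (1 / 100) 1 w k → Squarefree q → (q : ℝ) ≤ (N : ℝ) ^ (1 / (1000 * d) : ℝ) →
  0 ≤ M →
  (∀ (m s : ℕ) (β : ℝ), 1 ≤ m → (m : ℝ) ≤ (Real.log N) ^ B → s.Coprime q →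
    |β| ≤ (Real.log N) ^ B / N → ‖EL w (F.t l * N) (cc F l * m * q ^ d) s β‖ ≤ M) →
  ∑ n ∈ Ioc N (Bn E N), ∑ c ∈ Cq F n q l, |Er F N w n l q c| ≤
    C * ((D : ℝ) ^ q.primeFactors.card * ((N : ℝ) ^ (1 / (d : ℝ)) *
      (N * Real.log N / (q * (Real.log N) ^ A) + (Real.log N) ^ (2 * B) * (q ^ (d - 1) * M))))

/-- [NE qs] (uses sgq, cq) Proof: group the `n` by their class `ν ∈ range q` (`N ≥ F.N0`). For a class which occurs let `n0` be one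
of its elements: by `F.hper`, and as `F.L n l c` modulo `q` only depends on `n` modulo `q`, `Cq F n q l = Cq F n0 q l` for all
`n ≡ n0 (q)` of the block. Exchange the sums over `n` and `c`, and use `R_sgq` with `ν := n0` for each `c` (the coprimality is
in the definition of `Cq`), and `R_cq` for the number of the `c`; there are `q` classes. -/
def S_qs : Prop := R_sgq → R_cq → R_qs

/-! ### The interface -/

/-- [NE EX] (uses qs, G mjL, TE pm) The interface `NC.R_EX`. Proof: given `A`, `b`; `t = F.t l > 0` (`F.ht`: `t ≥ 2/E > 0`), `X = t N`.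
`A1 = 2A + b D + 3`; `B`, `C` from `R_qs` for `A1`; `K0` from `R_mjL` with `d`, `c0 = cc F l ≥ 1`, `A2 = 2A + 2B + 2`,
`b := b D`, `B := B + 1`; `B0 = max K0 1 + 1`. For `B1 ≥ B0` and large `N`, with `w = wN B1 N`: `k` from `TC.E.R_pm` with
`max K0 1`; `Pm` is monotone in `K0` for large `X` (`log X ≥ 1`, `log log X ≥ 0`). `e q` = the function of `R_mjL` at `X`. For `q`
squarefree, `q ≤ N^(1/(1000 d)) ≤ X^(1/(100 d))`, `R_qs` applies with `M = e q` (`(log N)^B ≤ (log X)^(B+1)`,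
`(log N)^B/N ≤ (log X)^(B+1)/X` for large `N`). So with `L = log N`, `Y = N^(1/d)`:
`∑_n ErS F N w n b l ≤ ∑_q b^ω(q) C D^ω(q) Y (N L/(q L^A1) + L^(2B) q^(d-1) e q)`
`≤ C Y N L^(1-A1) (1 + L)^(b D) + C Y L^(2B) X/(log X)^A2 ≤ Y N/L^(2A)` for large `N` (`sum_omega_le` in `MP_89da58_nt/BvW.lean` for
`∑ (bD)^ω(q)/q ≤ (1 + log)^(bD)`). If more than `N/L^A` of the `n` had `ErS > Y/L^A` the sum would be more than `Y N/L^(2A)`
(all terms are nonnegative). -/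
def S_EX : Prop := R_qs → G.R_mjL → TC.E.R_pm → NC.R_EX

end Pool.Agent.NC.E
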