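import Pool.Agent.Lib.MP_0da313_nt.NC.Q

set_option autoImplicit false

/-!
Project NC, section A: the averages over `n`. The densities of the local conditions depend on `n`; on
average over `n` they are the standard ones, and different primes are independent.
-/

namespace Pool.Agent.NC.A

open Finset Filter Polynomial
open Pool.Agent.MP89da58 (bil pw nn supp part join compat kapD)
open Pool.Agent.MT (PJf dvI ZI)
open Pool.Agent.BVall (om PK lev)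
open Pool.Agent.CM (z0)
open Pool.Agent.TC (wN)
open Pool.Agent.TC.W (qf)
open Pool.Agent.NC.Q (prr nu qr od)

/-! ### Definitions -/

/-- Two different members of the cluster have a common root modulo `p`. -/
def Cm {ι : Type} [Fintype ι] [DecidableEq ι] {D d E : ℕ} (F : Fam ι D d E) (n p : ℕ) : Prop :=
  ∃ (l l' : ι) (y : ℤ), l ≠ l' ∧ (p : ℤ) ∣ F.L n l y ∧ (p : ℤ) ∣ F.L n l' y

/-- The local conditions of the weights. -/
def DN {ι : Type} [Fintype ι] [DecidableEq ι] {D d E : ℕ} (F : Fam ι D d E) (P : Finset ℕ)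
    (n : ℕ) : PJf P → ι → ℤ → Prop :=
  fun j l y => ((j : ℕ) : ℤ) ∣ F.L n l y ∧ ¬ Cm F n (j : ℕ)

/-- The densities of the local conditions. -/
noncomputable def rn {ι : Type} [Fintype ι] [DecidableEq ι] {D d E : ℕ} (F : Fam ι D d E)
    (P : Finset ℕ) (n : ℕ) (j : PJf P) (l : ι) : ℝ := (od (DN F P n) j l : ℝ) / ((j : ℕ) : ℝ)

open Classical in
/-- The number of roots of the member `l` modulo `p`. -/
noncomputable def ol {ι : Type} [Fintype ι] [DecidableEq ι] {D d E : ℕ} (F : Fam ι D d E)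
    (n : ℕ) (l : ι) (p : ℕ) : ℕ := om (fun p y => (p : ℤ) ∣ F.L n l y) p

/-- The sum which compares the numbers of roots with their mean value. -/
noncomputable def sl {ι : Type} [Fintype ι] [DecidableEq ι] {D d E : ℕ} (F : Fam ι D d E)
    (n w z : ℕ) (l : ι) : ℝ := ∑ p ∈ (Ioc w z).filter Nat.Prime, ((ol F n l p : ℝ) - 1) / p

/-- Families of densities which depend on `n`. -/
structure Ld {ι : Type} (P : Finset ℕ) (K1 z : ℕ) (r : ℕ → PJf P → ι → ℝ) : Prop where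
  hp : ∀ p ∈ P, p.Prime ∧ z < p
  per : ∀ (j : PJf P) (l : ι) (n n' : ℕ), n ≡ n' [MOD (j : ℕ)] → r n j l = r n' j l
  nn : ∀ n j l, 0 ≤ r n j l
  le : ∀ n (j : PJf P) l, r n j l ≤ K1 / ((j : ℕ) : ℝ)
  av : ∀ (j : PJf P) l, |(∑ n ∈ range (j : ℕ), r n j l) / ((j : ℕ) : ℝ) -
    1 / (((j : ℕ) : ℝ) - 1)| ≤ K1 / ((j : ℕ) : ℝ) ^ 2

/-- The parameters for the block of `N`. -/
structure Par3 {ι : Type} [Fintype ι] [DecidableEq ι] {D d E : ℕ} (F : Fam ι D d E)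
    (B0 N n' : ℕ) (P : Finset ℕ) : Prop where
  hzB : N ≤ z0 D n' ^ B0
  hlev : (lev (2 * D) n' : ℝ) ^ 3 ≤ (Hn d N : ℝ) ^ (1 / 10000 : ℝ)
  hP : ∀ p ∈ P, p.Prime ∧ z0 D n' < p ∧ (p : ℝ) ≤ (Hn d N : ℝ) ^ (1 / 10000 : ℝ)

/-- The size and the support of the weights. -/
structure Wt3 {ι : Type} [Fintype ι] [DecidableEq ι] {P : Finset ℕ} (d N B : ℕ)
    (g : (PJf P → Option ι) → ℝ) : Prop where
  bd : ∀ α, |g α| ≤ B
  sup : ∀ α, g α ≠ 0 → ((nn (fun j : PJf P => (j : ℕ)) (supp α) : ℕ) : ℝ) ≤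
    (Hn d N : ℝ) ^ (1 / 10000 : ℝ)

/-! ### Local averages -/

/-- The local densities of the family. -/
def R_la : Prop := ∀ (ι : Type) [Fintype ι] [DecidableEq ι] (D d E : ℕ) (F : Fam ι D d E),
  ∃ K1 : ℕ, 1 ≤ K1 ∧ ∀ᶠ z : ℕ in atTop,
  (∀ P : Finset ℕ, (∀ p ∈ P, p.Prime ∧ z < p) → Ld P K1 z (fun n => rn F P n) ∧
    (∀ n (j : PJf P), ∑ l, rn F P n j l ≤ 1) ∧ (∀ n (j : PJf P) l, od (DN F P n) j l ≤ K1) ∧
    (∀ n (j : PJf P) l (x y : ℤ), ((j : ℕ) : ℤ) ∣ x - y → (DN F P n j l x ↔ DN F P n j l y)) ∧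
    ∀ n (j : PJf P) l l' y, l ≠ l' → ¬ (DN F P n j l y ∧ DN F P n j l' y)) ∧
  ∀ p : ℕ, p.Prime → z < p → ∀ l, (∀ n, ol F n l p ≤ K1) ∧
    (∀ n n' : ℕ, n ≡ n' [MOD p] → ol F n l p = ol F n' l p) ∧ ∑ n ∈ range p, ol F n l p = p

/-- [NS la] Proof: let `z` be larger than `|a l|`, `|coeff d (g l)|` (all not `0`: `F.ha`, `F.hg`, `F.hd`) and, for all
`l ≠ l'`, than the absolute value of some nonzero coefficient of `k = C (a l') * g l - C (a l) * g l'` (`F.hk`); for a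
prime `p > z` none of these numbers is divisible by `p`. `L n l y = a l * n + g l (y)`: modulo `p` this is a
polynomial in `y` of degree `d`, so it has at most `d` roots modulo `p` (`card_roots_mod_le`), it only depends
on `n` and `y` modulo `p`; `∑_{n < p} ol F n l p` is the number of the pairs `(n, y)` modulo `p` with
`p ∣ a l n + g l (y)`: for each `y` exactly one `n` (`p ∤ a l`), total `p`. The conditions `DN`: periodic in `y`;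
exclusive by the definition of `Cm`; `od (DN ..) j l ≤ ol F n l j ≤ d`; they depend on `n` modulo `j` only (also `Cm`).
Number of `n` modulo `p` with `Cm F n p`: then for some `l ≠ l'` and `y`: `p ∣ a l' L n l y - a l L n l' y = k(y)`, so
`y` modulo `p` is one of at most `d` roots of `k` modulo `p`, and `n` is determined by `y` and `l`: at most `|ι|^2 d`
classes `n`. So `p - |ι|^2 d^2 ≤ ∑_{n < p} od (DN F P n) j l ≤ p` (`p = j`), and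
`|(∑_n rn)/j - 1/(j-1)| ≤ |ι|^2 d^2/j^2 + 2/j^2`. `∑_l rn ≤ |ι| d/z ≤ 1`. `K1 = |ι|^2 d^2 + d + 2`. -/
def S_la : Prop := R_la

/-! ### The variance of the quadratic form -/

/-- The estimate for a pair of assignments. -/
def R_v1 : Prop := ∀ (ι : Type) [Fintype ι] [DecidableEq ι] (P : Finset ℕ) (K1 z : ℕ)
  (r : ℕ → PJf P → ι → ℝ), 1 ≤ K1 → 16 * K1 ^ 2 ≤ z → Ld P K1 z r →
  ∀ (γ γ' : PJf P → Option ι) (N N' : ℕ), N ≤ N' →
  |∑ n ∈ Ioc N N', (prr (r n) γ - pw (fun j : PJf P => 1 / (((j : ℕ) : ℝ) - 1)) (supp γ)) *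
      (prr (r n) γ' - pw (fun j : PJf P => 1 / (((j : ℕ) : ℝ) - 1)) (supp γ'))| ≤
  ((N' : ℝ) - N) * (1 / z * ∏ j ∈ supp γ ∪ supp γ', (16 * (K1 : ℝ) ^ 2 / ((j : ℕ) : ℝ))) +
    4 * ∏ j ∈ supp γ ∪ supp γ', ((j : ℕ) : ℝ)

/-- [NS v1] (uses Q cr) Proof: `S = supp γ`, `S' = supp γ'`, `x j = 1/(j-1) ≤ 2/j`; the term `f(n)` is periodic modulo
`q = ∏_{j ∈ S ∪ S'} j`, and `|f(n)| ≤ 1` since all densities are in `[0, 1]` (`K1/j ≤ 1`, `1/(j-1) ≤ 1`). Splitting `(N, N']`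
into full periods and a rest of at most `q` terms: `|∑_{(N, N']} f - ((N'-N)/q) ∑_{n < q} f| ≤ 2 q`. The mean value
`m = (1/q) ∑_{n < q} f(n)`: expand the product into four terms and use `R_cr` (a factor is constant if `j` is
not in the support in question). Let `e j = (1/j) ∑_{n < j} r n j (γ j)`, and `e' j` for `γ'`; `0 ≤ e, e' ≤ K1/j`,
`|e - x|, |e' - x| ≤ K1/j^2`.
If `S ∩ S' = ∅`: `m = (∏_S e - ∏_S x)(∏_{S'} e' - ∏_{S'} x)`, and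
`|∏_S e - ∏_S x| ≤ ∑_{j ∈ S} |e j - x j| ∏_{S \ j} (2 K1/i) ≤ |S| (1/z) ∏_S (2 K1/j) ≤ (1/z) ∏_S (4 K1/j)`
(`|S| ≤ 2^|S|`); the same for `S'` (where `≤ ∏_{S'} (4 K1/j)` is enough). So `|m| ≤ (1/z) ∏_{S ∪ S'} (4 K1/j)`.
If `S ∩ S' ≠ ∅`: each of the four terms is at most `∏_S (2 K1/j) ∏_{S'} (2 K1/j)`, so
`|m| ≤ 4 ∏_{S ∪ S'} (2 K1/j) ∏_{S ∩ S'} (2 K1/j) ≤ (1/z) ∏_{S ∪ S'} (4 * 2 K1 * 2 K1/j)` (one factor `1/j < 1/z`, the others
`≤ 1`; `4 ≤ 4^|S ∪ S'|`, `(2K1)^|S ∩ S'| ≤ (2K1)^|S ∪ S'|`). -/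
def S_v1 : Prop := Q.R_cr → R_v1

/-- The variance of the quadratic form. -/
def R_v2 : Prop := ∀ (ι : Type) [Fintype ι] [DecidableEq ι] (P : Finset ℕ) (K1 z : ℕ)
  (r : ℕ → PJf P → ι → ℝ), 1 ≤ K1 → 16 * K1 ^ 2 ≤ z → 3 * Fintype.card ι ≤ z → Ld P K1 z r →
  ∀ (g : (PJf P → Option ι) → ℝ) (B : ℝ) (Y : ℕ), 1 ≤ Y → (∀ α, |g α| ≤ B) →
  (∀ α, g α ≠ 0 → nn (fun j : PJf P => (j : ℕ)) (supp α) ≤ Y) → ∀ N N' : ℕ, N ≤ N' →
  ∑ n ∈ Ioc N N', (qr (r n) g - qf g) ^ 2 ≤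
  B ^ 4 * (((N' : ℝ) - N) * (1 / z * ∏ j : PJf P,
      (1 + (240 * (Fintype.card ι : ℝ) ^ 2 * (K1 : ℝ) ^ 2 + 240) / ((j : ℕ) : ℝ))) +
    4 * (Y : ℝ) ^ 12)

/-- [NS v2] (uses Q nu, v1) Proof: `qr (r n) g - qf g = ∑_γ nu g γ (prr (r n) γ - pw x (supp γ))` (`R_nu`, fourth claim, as
`qf g = bil x g g`). Square, sum over `n`, exchange: at most `∑_{γ, γ'} |nu γ| |nu γ'| * (bound of R_v1)`.
`|nu γ| ≤ B^2 3^|supp γ|`, and `nn (supp γ) ≤ Y^2` if `nu γ ≠ 0`. With the last claim of `R_nu`, `K = |ι|`: the first part is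
at most `B^4 (N'-N) (1/z) ∑_{S, S'} (3K)^(|S|+|S'|) ∏_{S ∪ S'} (16 K1^2/j)
= B^4 (N'-N) (1/z) ∏_j (1 + (6K + 9K^2) 16 K1^2/j)` (`(6K + 9K^2) * 16 ≤ 240 K^2` for `K ≥ 1`; for `K = 0` the product is
`1`), by `Finset.prod_univ_sum`-like expansion or: `∑_{S, S'} ∏_j F_j([j ∈ S], [j ∈ S']) = ∏_j ∑_{a, b} F_j(a, b)`. The
second part: `nn (S ∪ S') ≤ nn S * nn S'`, `(3K)^|S| ≤ nn S` (as `3K ≤ z < j`), so it is at most
`4 B^4 (∑_{nn S ≤ Y^2} (nn S)^2)^2 ≤ 4 B^4 (Y^2 * Y^4)^2` (`S ↦ nn S` is injective, values in `[1, Y^2]`). -/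
def S_v2 : Prop := Q.R_nu → R_v1 → R_v2

/-- The quadratic form is close to the standard one for almost all `n`. -/
def R_gq : Prop := ∀ (ι : Type) [Fintype ι] [DecidableEq ι] (D d E : ℕ) (F : Fam ι D d E)
  (B0 B A : ℕ), 1 ≤ D → 1 ≤ B0 → ∀ᶠ N : ℕ in atTop, ∀ (n' : ℕ) (P : Finset ℕ),
  Par3 F B0 N n' P → ∀ g : (PJf P → Option ι) → ℝ, Wt3 d N B g →
  (((Ioc N (Bn E N)).filter (fun n => 1 / (Real.log N) ^ A < |qr (rn F P n) g - qf g|)).card : ℝ)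
    ≤ N / (Real.log N) ^ A

/-- [NS gq] (uses la, v2, CM W pr) Proof: `z = z0 D n' ≥ N^(1/B0)` is large, so `R_la` applies (constant `K1`) and
`16 K1^2, 3 |ι| ≤ z`. `R_v2` with `Y = ⌊H^(1/10000)⌋₊` (`H = Hn d N ≤ N`; `H ≥ 1`), `N' = Bn E N ≤ 2N`:
`∏_j (1 + C3/j) ≤ ∏_{p ≤ N} (1 + C3/(p-1)) ≤ C (log N)^C3` (`CM.W.R_pr`; the `j ∈ P` are primes `≤ N`), so the variance is at
most `B^4 (N N^(-1/B0) C (log N)^C3 + 4 N^(12/10000))`, and Chebyshev's inequality gives the number of exceptional `n`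
at most `(log N)^(2A)` times this, which is `≤ N/(log N)^A` for large `N`. -/
def S_gq : Prop := R_la → R_v2 → CM.W.R_pr → R_gq

/-- The mean value of the number of roots for almost all `n`. -/
def R_gs : Prop := ∀ (ι : Type) [Fintype ι] [DecidableEq ι] (D d E : ℕ) (F : Fam ι D d E) (l : ι)
  (A : ℕ), ∃ B0 : ℕ, ∀ B1 : ℕ, B0 ≤ B1 → ∀ᶠ N : ℕ in atTop, ∀ z : ℕ,
  (z : ℝ) ≤ (N : ℝ) ^ (1 / 10 : ℝ) →
  (((Ioc N (Bn E N)).filter (fun n => sl F n (wN B1 N) z l < - (1 / 100))).card : ℝ) ≤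
    N / (Real.log N) ^ A

/-- [NS gs] (uses la) Proof: `B0 = A + 1`, `w = wN B1 N ≥ (log N)^(A+1) - 1` is large. For the primes `p > w` let
`f_p(n) = ol F n l p - 1`: periodic modulo `p`, `|f_p| ≤ K1 + 1`, `∑_{n < p} f_p(n) = 0` (`R_la`).
`∑_{n ∈ (N, Bn E N]} (∑_p f_p(n)/p)^2 = ∑_{p, p'} (1/(p p')) ∑_n f_p(n) f_p'(n)`. For `p ≠ p'` the function `f_p f_p'` is periodic
modulo `p p'` with mean value `0` (Chinese remainder theorem, e.g. `R_cr` or directly), so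
`|∑_n| ≤ (K1+1)^2 p p'`: the sum over `p ≠ p' ≤ z` is at most `(K1+1)^2 z^2 ≤ (K1+1)^2 N^(1/5)`. The diagonal:
`∑_{p > w} (1/p^2) (K1+1)^2 N ≤ (K1+1)^2 N/w` (`∑_{m > w} 1/m^2 ≤ 1/w`; the block has at most `N` elements). Chebyshev: the
number of exceptional `n` is at most `10^4 (K1+1)^2 (N/w + N^(1/5)) ≤ N/(log N)^A`. -/
def S_gs : Prop := R_la → Q.R_cr → R_gs

end Pool.Agent.NC.A
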