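import Pool.Agent.Lib.MP_0da313_nt.GC.All
import Pool.Agent.Lib.MP_0da313_nt.TC.E.P.pm
import Pool.Agent.Lib.MP_0da313_nt.NC.P.wt
import Pool.Agent.Lib.MP_0da313_nt.NC.P.bke
import Pool.Agent.Lib.MP_0da313_nt.NC.P.thc
import Pool.Agent.Lib.MP_0da313_nt.NC.P.hK
import Pool.Agent.Lib.MP_0da313_nt.NC.P.nc
import Pool.Agent.Lib.MP_0da313_nt.NC.P.maj
import Pool.Agent.Lib.MP_0da313_nt.NC.P.ghc
import Pool.Agent.Lib.MP_0da313_nt.NC.P.gmjL
import Pool.Agent.Lib.MP_0da313_nt.NC.P.ggrd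
import Pool.Agent.Lib.MP_0da313_nt.NC.P.garc
import Pool.Agent.Lib.MP_0da313_nt.NC.P.gspl
import Pool.Agent.Lib.MP_0da313_nt.NC.P.eloc
import Pool.Agent.Lib.MP_0da313_nt.NC.P.ecq
import Pool.Agent.Lib.MP_0da313_nt.NC.P.gmi
import Pool.Agent.Lib.MP_0da313_nt.NC.P.esgq
import Pool.Agent.Lib.MP_0da313_nt.NC.P.eqs
import Pool.Agent.Lib.MP_0da313_nt.NC.P.eEX

set_option autoImplicit false

/-!
Project NC: the analytic part. The interface `NC.R_EX`, proved.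
-/

namespace Pool.Agent.NC

namespace J

theorem h_wt : R_wt := p_wt

theorem h_bke : R_bke := p_bke GC.M.h_lsv GC.M.h_sw

theorem h_thc : R_thc := p_thc GC.M.h_ch GC.M.h_pn

theorem h_hK : R_hK := p_hK GC.M.h_cl GC.M.h_tl GC.M.h_tt

theorem h_nc : R_nc := p_nc GC.M.h_tl

theorem h_maj : R_maj := p_maj h_wt h_bke h_thc h_hK h_nc GC.M.h_tz

end J

namespace G

theorem h_hc : R_hc := p_hc GC.M.h_tl

theorem h_mjL : R_mjL := p_mjL J.h_maj h_hc

theorem h_spl : R_spl := p_spl p_grd p_arc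

end G

namespace E

theorem h_loc : R_loc := p_loc

theorem h_cq : R_cq := p_cq

theorem h_gmi : R_gmi := p_gmi

theorem h_sgq : R_sgq := p_sgq h_loc h_gmi G.h_spl

theorem h_qs : R_qs := p_qs h_sgq h_cq

/-- The interface. -/
theorem h_EX : NC.R_EX := p_EX h_qs G.h_mjL TC.E.p_pm

end E

end Pool.Agent.NC
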