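import Pool.Agent.Lib.MP_0da313_nt.TC.Defs

set_option autoImplicit false

/-!
Project NC (clusters of primes among the values of nonlinear members on the line `x + y = n`, for almost
all `n`): the definitions and the interface between the analytic part and the sieve part.

The members in the cluster are `a (x + y) + g(x)`, `a ≠ 0`, `deg g = d ≥ 2`; on the line `x + y = n` they are
`a n + g(x)`. After a change of sign they are positive near `x = (s n)^(1/d)`.
-/

namespace Pool.Agent.NC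

open Finset Filter Polynomial
open Pool.Agent.BVall (om PK)
open Pool.Agent.Lib.MP_0da313_nt (W)
open Pool.Agent.CH (thP)
open Pool.Agent.CM (wd)
open Pool.Agent.TC (Lw wN)

/-- The data attached to an admissible family. `G n` is the product of all members on the line
`x + y = n`, `a l * n + g l (x)` are the members in the cluster (`l : ι`), up to sign; `s` determines the
centre `(s N)^(1/d)` of the window. -/
structure Fam (ι : Type) [Fintype ι] [DecidableEq ι] (D d E : ℕ) where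
  N0 : ℕ
  G : ℕ → ℤ[X]
  Gc : ℕ → ι → ℤ[X]
  a : ι → ℤ
  g : ι → ℤ[X]
  s : ℝ
  hG : ∀ n, N0 ≤ n → ∀ l, G n = (C (a l * n) + g l) * Gc n l
  hdeg : ∀ n, N0 ≤ n → (G n).natDegree ≤ D
  hloc : ∀ n, N0 ≤ n → ∀ p : ℕ, p.Prime → ¬ ∀ x : ℤ, (p : ℤ) ∣ (G n).eval x
  hper : ∀ n n' q : ℕ, N0 ≤ n → N0 ≤ n' → n ≡ n' [MOD q] →
    ∀ x : ℤ, (q : ℤ) ∣ (G n).eval x - (G n').eval x
  hd : 2 ≤ d
  hE : 1 ≤ E
  ha : ∀ l, a l ≠ 0
  hg : ∀ l, (g l).natDegree = d
  hk : ∀ l l', l ≠ l' → C (a l') * g l ≠ C (a l) * g l'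
  hs0 : 1 / 4 ≤ s
  hs1 : s ≤ 1 / 2
  ht : ∀ l, |(a l : ℝ)| + |((g l).coeff d : ℝ)| ≤ E * (a l + (g l).coeff d * s)

namespace Fam

variable {ι : Type} [Fintype ι] [DecidableEq ι] {D d E : ℕ} (F : Fam ι D d E)

/-- The value of the member `l` on the line `x + y = n`. -/
def L (n : ℕ) (l : ι) (x : ℤ) : ℤ := F.a l * n + (F.g l).eval x

/-- The size of the member `l` is about `t l * n`. -/
noncomputable def t (l : ι) : ℝ := F.a l + (F.g l).coeff d * F.s

/-- The centre of the window. -/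
noncomputable def X (N : ℕ) : ℝ := (F.s * N) ^ (1 / (d : ℝ))

/-- The window. -/
noncomputable def wh (N x : ℕ) : ℝ := wd (1000 * d * E) (F.X N) x

/-- The product over the primes `≤ z` of the conditions `p ∣ G`. -/
noncomputable def V (n n' : ℕ) : ℝ := by
  classical
  exact W (fun p => (om (fun p y => (p : ℤ) ∣ (F.G n).eval y) p : ℝ) / p) (PK (2 * D) n')

/-- No prime `≤ z` divides `G`. -/
def Rg (n z : ℕ) (x : ℤ) : Prop := ∀ p : ℕ, p.Prime → p ≤ z → ¬ (p : ℤ) ∣ (F.G n).eval x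

end Fam

/-- The length of the sums over `x`. -/
noncomputable def Hn (d N : ℕ) : ℕ := ⌊(N : ℝ) ^ (1 / (d : ℝ))⌋₊

/-- The end of the block of `N`: the blocks are `(N, N + N/(1000 E)]`. -/
def Bn (E N : ℕ) : ℕ := N + N / (1000 * E)

variable {ι : Type} [Fintype ι] [DecidableEq ι] {D d E : ℕ}

open Classical in
/-- The relevant classes modulo `q`: the residues `c` such that `q` divides `G(c)` and the value of the
member `l` at `c` is coprime to `q`. -/
noncomputable def Cq (F : Fam ι D d E) (n q : ℕ) (l : ι) : Finset ℕ :=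
  (range q).filter (fun c => (q : ℤ) ∣ (F.G n).eval (c : ℤ) ∧ IsCoprime (q : ℤ) (F.L n l c))

/-- The difference between the prime sum and the model sum over a class. -/
noncomputable def Er (F : Fam ι D d E) (N w n : ℕ) (l : ι) (q c : ℕ) : ℝ :=
  ∑ x ∈ (Icc 1 (Hn d N)).filter (fun x => x ≡ c [MOD q]),
    F.wh N x * (thP (F.L n l x).toNat - Lw w (F.L n l x).toNat)

/-- The sum over the moduli. -/
noncomputable def ErS (F : Fam ι D d E) (N w n b : ℕ) (l : ι) : ℝ :=
  ∑ q ∈ (Icc 1 ⌊(N : ℝ) ^ (1 / (1000 * d) : ℝ)⌋₊).filter Squarefree,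
    (b : ℝ) ^ q.primeFactors.card * ∑ c ∈ Cq F n q l, |Er F N w n l q c|

open Classical in
/-- THE INTERFACE: the statement which the analytic part has to prove. -/
def R_EX : Prop := ∀ (ι : Type) [Fintype ι] [DecidableEq ι] (D d E : ℕ) (F : Fam ι D d E) (l : ι)
  (A b : ℕ), ∃ B0 : ℕ, ∀ B1 : ℕ, B0 ≤ B1 → ∀ᶠ N : ℕ in atTop,
  (((Ioc N (Bn E N)).filter (fun n =>
    (N : ℝ) ^ (1 / (d : ℝ)) / (Real.log N) ^ A < ErS F N (wN B1 N) n b l)).card : ℝ) ≤
    N / (Real.log N) ^ A

end Pool.Agent.NC
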