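import Pool.Agent.Lib.MP_0da313_nt.NC.M
import Pool.Agent.Lib.MP_0da313_nt.TC.F

set_option autoImplicit false

/-!
Project NC, section F: the weights, the final count for a good `n`, the family data and the final theorem.

Notation for the docstrings: `z = z0 D n'`, `κ = kapD z`, `V = F.V n n'`, `K = |ι|`, `H = Hn d N`,
`x0 = N^(1/d)`, `m = mN F N`.
-/

namespace Pool.Agent.NC.F

open Finset Filter Polynomial
open ArithmeticFunction (cardFactors)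
open Pool.Agent.MP89da58 (bil pw nn supp part kapD tri)
open Pool.Agent.MT (PJf dvI ZI)
open Pool.Agent.BVall (om PK lev RepB Dens)
open Pool.Agent.Lib.MP_0da313_nt (Admissible lineRestrict val singV W)
open Pool.Agent.CH (thP)
open Pool.Agent.CM (z0)
open Pool.Agent.CM.F (Pre)
open Pool.Agent.TC (wN)
open Pool.Agent.TC.W (qf WP2)
open Pool.Agent.NC.Q (qr)
open Pool.Agent.NC.A (DN rn sl Par3 Wt3)
open Pool.Agent.NC.M (mN)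

/-! ### The weights -/

/-- Existence of the weights. -/
def R_sy : Prop := ∃ c : ℝ, 0 < c ∧ c ≤ 1 ∧ ∀ (ι : Type) [Fintype ι] [DecidableEq ι] [Nonempty ι],
  ∃ M : ℕ, 1 ≤ M ∧ ∀ (B0 D d E : ℕ) (F : Fam ι D d E), 1 ≤ B0 → 1 ≤ D → ∀ᶠ N : ℕ in atTop,
  ∀ n' : ℕ, N ≤ z0 D n' ^ B0 → (lev (2 * D) n' : ℝ) ^ (3 * M) ≤ (Hn d N : ℝ) ^ (1 / 10000 : ℝ) →
  ∃ (P : Finset ℕ) (Y : ℕ) (g : (PJf P → Option ι) → ℝ) (g1 : ι → (PJf P → Option ι) → ℝ)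
    (a τ : ℝ), Par3 F B0 N n' P ∧ (Y : ℝ) ≤ (Hn d N : ℝ) ^ (1 / 10000 : ℝ) ∧
    WP2 P Y ((B0 : ℝ) ^ Fintype.card ι) a (τ * (kapD (z0 D n') * Real.log (Hn d N))) g g1 ∧
    c / (Fintype.card ι * B0) ≤ τ ∧ τ ≤ 1 ∧ c * Real.log (Fintype.card ι) ≤ Fintype.card ι * τ

/-- [NS sy] (uses TC.W wpg) Proof: `c`, `M` from `R_wpg`, applied with `n := H = Hn d N → ∞` (`d ≥ 2`, `F.hd`),
`y = ⌊H^(1/(10000 M))⌋₊`, `Ex = ∅`, `P` = the primes `p` with `z < p ≤ y^M`, `Y = y^M ≤ H^(1/10000)`. `H ≤ N ≤ z^B0`; `z ≤ y`: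
`z ≤ lev (2D) n'` (`z0_le_lev`, `CM/P/app.lean`), so `z^M ≤ lev^(3M) ≤ H^(1/10000)` (`lev ≥ 1`), `z ≤ H^(1/(10000 M))`;
`log H ≤ 20000 M log y` for large `H` (`y ≥ H^(1/(10000 M)) - 1 ≥ H^(1/(20000 M))`). `Par3`: `lev^3 ≤ lev^(3M)`, and
`p ≤ y^M ≤ H^(1/10000)`. -/
def S_sy : Prop := TC.W.R_wpg → R_sy

/-! ### The numerical inequality -/

/-- The numerical inequality behind the final count: `l = log N`, `h = log H`, `x = N^(1/d)`, `k = κ`,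
`q i = qr (g1 i)`, `q0 = qr g`, `T i`, `S` the sums. -/
def R_nm : Prop := ∀ (ι : Type) [Fintype ι] [Nonempty ι] (D d C B : ℕ) (c1 t0 : ℝ), 1 ≤ d → 1 ≤ C →
  0 < c1 → 0 < t0 → ∃ l0 : ℝ, ∀ (l h m x v k τ a q0 S : ℝ) (q T : ι → ℝ), l0 ≤ l →
  l ≤ 2 * d * h → h ≤ l → 0 ≤ m → m ≤ x → x ≤ C * m → c1 / l ^ (8 * D) ≤ v → v ≤ 1 → 0 < k →
  1 ≤ 1000 * (k * l) → t0 ≤ τ → τ ≤ 1 → 1 ≤ a →
  (∀ i, τ * (k * h) * a - 1 / l ^ (8 * D + 8) ≤ q i) → q0 ≤ 2 * a + 1 / l ^ (8 * D + 8) →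
  (∀ i, 9 / 10 * (m * (v / k)) * q i - x / l ^ (8 * D + 8) -
    3 * (B : ℝ) ^ 2 * (x / l ^ (8 * D + 8)) ≤ T i) →
  S ≤ 1001 / 1000 * (m * v) * q0 + x / l ^ (8 * D + 8) →
  1 / 2 * (Fintype.card ι * τ * h * a * (m * v)) ≤
    ∑ i, T i - Fintype.card ι * τ * h / 10 * S

/-- [NS nm] Proof: `K = |ι|`, `ε = 1/l^(8D+8)`, `M0 = τ h a m v ≥ 0`. `v > 0`, `h > 0`. `∑ T ≥ K ((9/10)(m v/k)(τ k h a - ε)
- (1 + 3B^2) x ε) ≥ (9/10) K M0 - K ε ((9/10) m v/k + (1 + 3B^2) C m)`. `S ≤ 1.001 m v (2a + ε) + C m ε`, so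
`(K τ h/10) S ≤ 0.2002 K M0 + (K τ h/10) ε m (1.001 v + C)`. As `1/k ≤ 1000 l`, `v ≤ 1`, `h ≤ l`, `τ ≤ 1`, all the errors
together are at most `C' K m l ε` with `C' = 900 + (1 + 3B^2) C + 2 + C` (for `l ≥ 1`), and
`M0 ≥ t0 (l/(2d)) m c1 l^(-8D)`, so they are at most `0.19 K M0` if `l^8 ≥ 2 d C'/(0.19 t0 c1)`. Total:
`≥ (0.9 - 0.2002 - 0.19) K M0 ≥ K M0/2`. -/
def S_nm : Prop := R_nm

/-! ### The final count for a good `n` -/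

open Classical in
/-- The number of good points for a good `n`. -/
def R_cn : Prop := ∀ (ι : Type) [Fintype ι] [DecidableEq ι] [Nonempty ι] (D d E B0 : ℕ) (t0 : ℝ),
  1 ≤ D → 2 ≤ d → 1 ≤ E → 1 ≤ B0 → 0 < t0 → ∃ c : ℝ, 0 < c ∧ ∀ (F : Fam ι D d E) (B1 : ℕ),
  3 ≤ B1 → ∀ᶠ N : ℕ in atTop, ∀ n ∈ Ioc N (Bn E N), ∀ (n' : ℕ) (P : Finset ℕ),
  Par3 F B0 N n' P → (2 : ℝ) ^ (2 * D + n') ≤ Real.log N → ∀ (Y : ℕ)
  (g : (PJf P → Option ι) → ℝ) (g1 : ι → (PJf P → Option ι) → ℝ) (a τ : ℝ),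
  (Y : ℝ) ≤ (Hn d N : ℝ) ^ (1 / 10000 : ℝ) →
  WP2 P Y ((B0 : ℝ) ^ Fintype.card ι) a (τ * (kapD (z0 D n') * Real.log (Hn d N))) g g1 →
  t0 ≤ τ → τ ≤ 1 →
  (∀ l, ErS F N (wN B1 N) n (6 * Fintype.card ι) l ≤
    (N : ℝ) ^ (1 / (d : ℝ)) / (Real.log N) ^ (8 * D + 8)) →
  |qr (rn F P n) g - qf g| ≤ 1 / (Real.log N) ^ (8 * D + 8) →
  (∀ l, |qr (rn F P n) (g1 l) - qf (g1 l)| ≤ 1 / (Real.log N) ^ (8 * D + 8)) →
  (∀ l, - (1 / 100) ≤ sl F n (wN B1 N) (z0 D n') l) →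
  c * ((N : ℝ) ^ (1 / (d : ℝ)) * F.V n n') ≤ (((Icc 1 (Hn d N)).filter (fun x : ℕ =>
    F.wh N x ≠ 0 ∧ F.Rg n (z0 D n') x ∧
    Fintype.card ι * τ / 40 ≤
      d * ((univ.filter (fun i : ι => (F.L n i x).natAbs.Prime)).card : ℝ) ∧
    1 ≤ (univ.filter (fun i : ι => (F.L n i x).natAbs.Prime)).card)).card : ℝ)

/-- [NS cn] (uses nm, A la, Q qp, M win, mas, dn, pw, T, S, wm, CM S pre) Proof: `B = B0^K` (natural), `Fp, Fm` from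
`CM.S.R_pre` with `K := 2D` (this is `Pre D n' Fp Fm`, as in `CM/P/cnt.lean`, `TC/P/cn2.lean`). `g`, `g1 l` satisfy
`Wt3 d N B` (`WP2.bd, bdi, sup, supi`), and `g1 l α ≠ 0` implies `part α l = ∅`, so `α j ≠ some l` for all `j`. All the
`qr (rn F P n) _ ≥ 0` by `R_qp` and `R_la` (`∑_l rn ≤ 1`, `rn ≥ 0`; `z` is large). Let `Z(x) = ZI (DN F P n) g x`,
`θ_i(x) = thP (L_i x).toNat`, `X` = the `x ∈ Icc 1 H` with `Rg`. If `x ≥ 1`, `wh x ≠ 0` and `θ_i(x) ≠ 0` then `L_i(x)` is a prime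
`≥ N/C > H^(1/10000)` (`R_win`), so no `p ∈ P` divides it and `Z(x) = ZI (DN F P n) (g1 i) x` (`WP2.link`). So with
`T_i = ∑_{x ∈ X} wh θ_i ZI (g1 i)^2` and `S = ∑_{x ∈ X} wh Z^2`: `∑_i T_i - ρ S = ∑_{x ∈ X} wh (∑_i θ_i - ρ) Z^2`,
`ρ = K τ h/10`, `h = log H`. `R_nm` (with `C = 10000 d E`, `x = N^(1/d)`, `c1` from `W_ge` for `V` as in `CM/P/cnt.lean`:
`V ≥ c1/(log N)^(8D)` by `2^(2D+n') ≤ log N`; `1 ≤ 1000 κ log z ≤ 1000 κ log N` by `mertens`, `MT/Mertens.lean`,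
`κ > 0`; `l ≤ 2 d h`: `H ≥ N^(1/d) - 1 ≥ N^(1/(2d))`; `R_mas`; `q i = qr (g1 i) ≥ qf (g1 i) - ε`, `WP2.lo`; `q0 = qr g ≤ qf g + ε`,
`WP2.up`; `R_T`, `R_S` with `A = 8D + 8`; `a ≥ 1`): `∑ T_i - ρ S ≥ (1/2) K τ h a m V`. Pointwise
`wh (∑ θ_i - ρ) Z^2 ≤ [∑ θ_i > ρ] wh ∑ θ_i Z^2 ≤ [..] 2 K log N * Zm`, `Zm = (2^(K (B0+1)) B)^2` (`R_wm`, for `wh ≠ 0`,
`wh ≤ 1`). So the number of the `x ∈ X` with `wh ≠ 0` and `∑_i θ_i > ρ` is at least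
`K τ h a m V/(4 K log N Zm) ≥ (t0/(8 d Zm)) m V ≥ c N^(1/d) V`, `c = t0/(8 d Zm * 10000 d E)`. For such an `x`:
`ρ ≥ 0` so some `θ_i ≠ 0`, and the number of the `i` with `θ_i ≠ 0` is at least `ρ/(2 log N) ≥ K τ/(40 d)` (`h ≥ log N/(2d)`).
`θ_i ≠ 0` means that `(L_i x).toNat` is a prime, which is `(L_i x).natAbs` as `L_i x > 0`. -/
def S_cn : Prop := R_nm → A.R_la → Q.R_qp → M.R_win → M.R_mas → M.R_dn → M.R_pw → M.R_T → M.R_S →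
  M.R_wm → CM.S.R_pre → R_cn

/-! ### The family data -/

/-- Existence of the family data. -/
def R_fm : Prop := ∀ (m D : ℕ), 1 ≤ m → 1 ≤ D → ∀ f : Fin m → MvPolynomial (Fin 2) ℤ,
  Admissible f → (∀ k, (f k).totalDegree ≤ D) → ∀ (d : ℕ) (I : Finset (Fin m)), 2 ≤ d →
  ∀ (a : Fin m → ℤ) (g : Fin m → ℤ[X]),
  (∀ k ∈ I, a k ≠ 0 ∧ (g k).natDegree = d ∧ f k = MvPolynomial.C (a k) *
    (MvPolynomial.X 0 + MvPolynomial.X 1) + aeval (MvPolynomial.X 0) (g k)) →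
  (∀ k ∈ I, ∀ l ∈ I, k ≠ l → f k ≠ f l ∧ f k ≠ - f l) →
  (I.Nonempty → d ≤ D) ∧ ∃ F : Fam {k // k ∈ I} (m * D) d (16 * (m + 1)),
    (∀ n, F.N0 ≤ n → F.G n = ∏ k, lineRestrict (f k) n) ∧
    (∀ n, F.N0 ≤ n → ∀ k, Irreducible (lineRestrict (f k) n)) ∧
    ∀ (n : ℕ) (l : {k // k ∈ I}) (x : ℤ),
      (F.L n l x).natAbs = (val (f l) x ((n : ℤ) - x)).natAbs

/-- [NS fm] (uses TC.F pe) Proof: `val (f k) x (n - x) = a k n + (g k)(x)` (evaluate; `val f x y` is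
`MvPolynomial.eval ![x, y] f`), so `lineRestrict (f k) n = C (a k * n) + g k` (`eval_lineRestrict`, equality of
polynomials with the same values at all integers). `d ≤ D`: the degree in `x` of `f k`: `natDegree` of
`lineRestrict (f k) n` is `d` (`d ≥ 2`) and at most `D` (`natDegree_lineRestrict_le`, `MT/Core.lean`), if `I` is not
empty. For `k ∈ I` let `c_k = (g k).coeff d ≠ 0`. Choice of `s`: the `m + 1` numbers `s_j = 1/4 + j/(4(m+1))`,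
`0 ≤ j ≤ m`, lie in `[1/4, 1/2]` with distances `≥ 1/(4(m+1))`. For each `k ∈ I` at most one `j` satisfies
`|a k + c_k s_j| < (|a k| + |c_k|)/(16(m+1))`: with `r = -a k/c_k` this says `|s_j - r| < (1 + |r|)/(16(m+1))`, impossible
for `|r| > 1` (then `|s_j - r| ≥ |r|/2`), and for `|r| ≤ 1` it gives `|s_j - r| < 1/(8(m+1))`. As `|I| ≤ m` some `s = s_j` has
`|a k + c_k s| ≥ (|a k| + |c_k|)/(16(m+1))` for all `k ∈ I`. Sign `σ_k = ±1` with `σ_k (a k + c_k s) > 0`. `F.a l = σ a`,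
`F.g l = C σ * g` (as `Int` constant), `G n = ∏ k, lineRestrict (f k) n`,
`Gc n l = C σ * ∏ k ∈ univ.erase l, lineRestrict (f k) n`. `hdeg`: `natDegree_prod_le`. `hloc`, irreducibility:
`Admissible` (and `eval_prod`), as in `CM/P/fam.lean`; `hper`: `TC.F.R_pe`. `hk`: suppose
`C (a l') * g l = C (a l) * g l'` (for the `F`-data, signs `σ`); then `a l' f = a l f'` on the line `x + y = n` for every `n`, where
`f = C (a l * n) + g l`, `f'` the other one, both irreducible in `ℤ[X]` of positive degree, hence primitive; comparing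
the contents `|a l'| = |a l|`, so `f = ± f'` for all large `n`, hence `a l = ± a l'`, `g l = ± g l'` (the same sign) and
`f_l = ± f_l'` in `MvPolynomial`: contradiction. Last claim: `L n l x = σ * val ..`, `|σ| = 1`. -/
def S_fm : Prop := TC.F.R_pe → R_fm

/-! ### The final theorem -/

open Classical in
/-- The final theorem. -/
def R_fin : Prop := ∃ c0 : ℝ, 0 < c0 ∧ ∀ m D : ℕ, 1 ≤ m → 1 ≤ D → ∃ (B : ℕ) (c : ℝ), 0 < c ∧
  ∀ f : Fin m → MvPolynomial (Fin 2) ℤ, Admissible f → (∀ k, (f k).totalDegree ≤ D) →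
  ∀ (d : ℕ) (I : Finset (Fin m)), 2 ≤ d → I.Nonempty → ∀ (a : Fin m → ℤ) (g : Fin m → ℤ[X]),
  (∀ k ∈ I, a k ≠ 0 ∧ (g k).natDegree = d ∧ f k = MvPolynomial.C (a k) *
    (MvPolynomial.X 0 + MvPolynomial.X 1) + aeval (MvPolynomial.X 0) (g k)) →
  (∀ k ∈ I, ∀ l ∈ I, k ≠ l → f k ≠ f l ∧ f k ≠ - f l) →
  ∀ A : ℕ, ∀ᶠ N : ℕ in atTop, (((Icc 1 N).filter (fun n : ℕ =>
    ¬ (c * ((n : ℝ) ^ (1 / (d : ℝ)) * singV f n) ≤
    (Set.ncard {x : ℕ | 0 < x ∧ x < n ∧ x ^ d ≤ n ∧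
      (c0 * Real.log I.card ≤
          d * ((I.filter (fun k => (val (f k) x ((n : ℤ) - x)).natAbs.Prime)).card : ℝ) ∧
        1 ≤ (I.filter (fun k => (val (f k) x ((n : ℤ) - x)).natAbs.Prime)).card) ∧
      ∀ k, 1 < |val (f k) x ((n : ℤ) - x)| ∧
      (∀ p : ℕ, p.Prime → (p : ℤ) ∣ val (f k) x ((n : ℤ) - x) → n < p ^ B) ∧
      cardFactors (val (f k) x ((n : ℤ) - x)).natAbs ≤ B * D} : ℝ)))).card : ℝ) ≤
    N / (Real.log N) ^ A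

/-- [NS fin] (uses EX, sy, cn, fm, A gq, gs, la, M win, TC.F bk) Proof: compare `TC/P/fin2.lean` and `CM/P/fin.lean`.
`c'` from `R_sy`, `c0 = c'/40`. For fixed `m, D` and each of the finitely many nonempty `I ⊆ Fin m` and `2 ≤ d ≤ D`:
`ι = {k // k ∈ I}`, `M` from `R_sy`, `E = 16(m+1)`, `D1 = m D`, `B0 = 2 d * (128000 * (2 D1) * (30 M))`, `t0 = c'/(|ι| B0)`,
`c_(I,d)` from `R_cn`; `B = 1 + max B0`, `c = (1/4) min c_(I,d)` (and `c ≤ 1`). Let `f, d, I, a, g` be given, `d ≤ D` and `F`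
from `R_fm`. Let `S` be the set of the `n` for which the asserted inequality fails. By `TC.F.R_bk` with `k = 1000 E`
(`Bn E N = N + N/(1000 E)`) it suffices to show for every `A` and all large `N` that
`#(S ∩ (N, Bn E N]) ≤ N/(log N)^A`. Let `A' = max (A + 1) (8 D1 + 8)`; `B1` = the maximum of `3`, and of the `B0` of `R_EX` for
all `l : ι` (`A'`, `b = 6 |ι|`) and of `R_gs` for all `l` (`A'`). For large `N`: `choose_levS (2 D1) (30 M) .. c2`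
(`MT/Level.lean`) at `x = H = Hn d N` gives `n'` with `lev^(30M) ≤ H^(1/1000)`, so `lev^(3M) ≤ H^(1/10000)`;
`H ≤ z^(128000 (2 D1)(30 M))`, so `N ≤ (H+1)^d ≤ H^(2d) ≤ z^B0`; `2^(2 D1+n') ≤ log H ≤ log N`, `c2 ≤ z`. (`PK (2 D1) n'` are the
primes `≤ z = z0 D1 n' = 2^(2^(2 D1+n'))`.) `R_sy` gives `P, Y, g, g1, a, τ` (the same for all `n` of the block). The
exceptional `n` of the block: those with `ErS > x0/(log N)^A'` for some `l` (`R_EX`), with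
`1/(log N)^A' < |qr - qf|` for `g` or some `g1 l` (`R_gq`, `B = B0^|ι|`), with `sl < -1/100` for some `l` (`R_gs`; `z ≤ H ≤ N^(1/10)`
fails in general but `z ≤ lev ≤ H^(1/10000)`), altogether at most `(3|ι| + 1) N/(log N)^(A+1) ≤ N/(log N)^A`. For the other
`n`, `R_cn` gives at least `c_(I,d) N^(1/d) V` points `x`, with `x ≤ H`, `wh ≠ 0`, so `0 < x < n`, `x^d ≤ n` (`R_win`), `Rg`. As in
`CM/P/fin.lean` (`good_of_rough`, `card_unit_le`, `singV_le`, `W_ge`): all but `O(1)` of them satisfy `1 < |val (f k)|` for all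
`k`; prime factors of the values are `> z`, and `n ≤ 2N ≤ 2 z^B0 < z^B`; `Ω ≤ B D`; `singV f n ≤ V`; `N^(1/d) ≥ n^(1/d)/2`, and
`N^(1/d) V → ∞` absorbs the `O(1)`. `c0 log |I| ≤ |ι| τ/40 ≤ d * #`. The primes are counted by `R_fm` (last claim);
the cardinalities over `{k // k ∈ I}` and over `I.filter` agree (`card_filter_sub`). So `n ∉ S`. -/
def S_fin : Prop := R_EX → R_sy → R_cn → R_fm → A.R_gq → A.R_gs → M.R_win → TC.F.R_bk → R_fin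

end Pool.Agent.NC.F
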