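import Pool.Agent.Lib.MP_0da313_nt.NC.Main
import Pool.Agent.Lib.MP_0da313_nt.NC.Ana

set_option autoImplicit false

/-!
Project NC: the final theorem.
-/

namespace Pool.Agent.NC

/-- The interface. -/
theorem h_EX : R_EX := E.h_EX

/-- The final theorem. -/
theorem h_final : F.R_fin := F.h_fin h_EX

end Pool.Agent.NC
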