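import Pool.Agent.Lib.MP_0da313_nt.GC.B

set_option autoImplicit false

/-!
Project NC (clusters of nonlinear members for almost all `n`), section J: the major arcs, that is the
exponential sums over the classes modulo `c0 l q^d` with a small phase. `R_x` is the conclusion, `S_x` the
statement to be proved (with the results it uses as hypotheses). Everything is an adaptation of section M of
project GC (`GC/M.lean`, proofs in `GC/P/*.lean`), where the modulus is `d^2 q`. `L = log X`,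
`wd lam X t = tri (lam * log (t / X))`, `mu lam * X` is the integral of the window,
`HH w k t = (kapD w)⁻¹ U (dv t) (prs w) k`, `ES w k X K s β = ∑_{t ≤ 2X, t ≡ s (K)} (thP t - HH w k t) tz(t/X) ex(β t)`,
`pL lam X r` the sum of `|∑ Λ(n) χ(n) wd lam X n|` over the primitive characters modulo `r`.
-/

namespace Pool.Agent.NC.J

open Finset Filter
open ArithmeticFunction (vonMangoldt)
open Pool.Agent.MP89da58 (tri primChars kapD)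
open Pool.Agent.Lib.MP_0da313_nt (W U)
open Pool.Agent.CH (thP)
open Pool.Agent.CM (wd mu)
open Pool.Agent.SP80 (ex)
open Pool.Agent.GC (HH tz ES Pm prs dv pL)

/-! ### The sum over the moduli -/

/-- The weight of a conductor. -/
def R_wt : Prop := ∀ d b : ℕ, 1 ≤ d → ∃ C : ℝ, 0 < C ∧ ∀ D V f : ℕ, 1 ≤ D → 1 ≤ V → 1 ≤ f →
  ∑ q ∈ (Icc 1 D).filter (fun q => Squarefree q ∧ f ∣ V * q ^ d),
      (b : ℝ) ^ q.primeFactors.card / q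
    ≤ C * (1 + Real.log D) ^ b * ((V : ℝ) / f) ^ (1 / (2 * d : ℝ))

/-- [NC wt] Proof: `m = f/gcd(f, V) ≥ f/V` is coprime to `V/gcd(f, V)`, so `f ∣ V q^d` implies `m ∣ q^d`. As `q` is
squarefree, `ρ = ∏_{p ∣ m} p` divides `q` and `m ∣ ρ^d` (exponents at most `d`), so `ρ ≥ m^(1/d)`. Writing `q = ρ q'`
(`(ρ, q') = 1`): the sum is at most `(b^ω(ρ)/ρ) ∑_{q' ≤ D squarefree} b^ω(q')/q' ≤ (b^ω(ρ)/ρ) (1 + log D)^b` (as in
`bv_weightedL`, `BV/BvWL.lean`; compare `TC/E/P/bvU.lean`). `b^ω(ρ)/√ρ = ∏_{p ∣ ρ} b/√p ≤ ∏_{p ≤ b^2} b =: C` (`b ≥ 1`; for `b = 0`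
only `q = 1`, that is `m = 1`, contributes: `C = 1`), so `b^ω(ρ)/ρ ≤ C ρ^(-1/2) ≤ C m^(-1/(2d)) ≤ C (V/f)^(1/(2d))`. -/
def S_wt : Prop := R_wt

/-- All conductors, with a small power. -/
def R_bke : Prop := ∀ (η : ℝ) (A : ℕ), 0 < η → ∀ᶠ X : ℝ in atTop, ∀ lam : ℝ, 1 ≤ lam → ∀ R : ℕ,
  (R : ℝ) ≤ X ^ (1 / 12 : ℝ) → ∑ r ∈ Icc 2 R, pL lam X r * (r : ℝ) ^ (-η) ≤ X / (Real.log X) ^ A

/-- [NC bke] (uses GC M lsv, sw) Proof: as `GC/P/bk.lean` (`η = 1/2` there): `C0` from `R_lsv`, `B` a natural number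
`≥ (A + C0 + 3)/η`, `R0 = ⌈L^B⌉₊`. For `2 ≤ r ≤ R0`: `R_sw` with `A' = A + 2B + 2`, `B + 1`: each of the at most `r` characters gives
at most `X/L^A'`, together at most `(R0 + 1)^2 X/L^A'`. For `r > R0`: dyadic blocks `2^j R0 < r ≤ 2^(j+1) R0` (cut at `R`),
each at most `(2^j R0)^(-η) X L^C0 ≤ L^(-B η) X L^C0`, and there are at most `2L` blocks. -/
def S_bke : Prop := GC.M.R_lsv → GC.M.R_sw → R_bke

/-! ### Residue classes with windows -/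

/-- The primes. -/
def R_thc : Prop := ∀ A : ℕ, ∀ᶠ X : ℝ in atTop, ∀ (lam : ℝ) (K s : ℕ), 1 ≤ lam → 1 ≤ K →
  (K : ℝ) ≤ X ^ (1 / 20 : ℝ) → s.Coprime K →
  |∑ t ∈ (Icc 1 ⌊3 * X⌋₊).filter (fun t => t ≡ s [MOD K]), thP t * wd lam X t -
      mu lam * X / (Nat.totient K : ℝ)| ≤
    1 / (Nat.totient K : ℝ) *
      (∑ r ∈ K.divisors.filter (fun r => 2 ≤ r), pL lam X r + X / (Real.log X) ^ A)

/-- [NC thc] (uses GC M ch, pn) Proof: compare `GC/P/bL.lean`. `R_ch` with `f` the indicator function of the class `s` in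
`ZMod K` (`F = 1`, `∑_x f x = 1`), `g n = Λ(n) wd lam X n`, `S = Icc 1 ⌊3X⌋₊`. The `n` not coprime to `K` contribute at most
`∑ Λ(n) ≤ (log K/log 2)(log 3X) ≤ 4 L^2` (powers of the primes dividing `K`), times `K ≤ X^(1/20)`. `R_pn` with `A + 1` for
`∑ Λ(n) wd lam X n`. The proper prime powers: `∑_{t ≤ 3X} (Λ - thP) ≤ C √X log X ≤ (1/K) X/(4 L^A)`. -/
def S_thc : Prop := GC.M.R_ch → GC.M.R_pn → R_thc

/-- The model. -/
def R_hK : Prop := ∀ A B : ℕ, ∃ K0 : ℕ, ∀ᶠ X : ℝ in atTop, ∀ w k : ℕ, Pm X (1 / 50) K0 w k →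
  ∀ lam : ℝ, 1 ≤ lam → ∀ K g r : ℕ, 1 ≤ K → (K : ℝ) ≤ X ^ (1 / 20 : ℝ) → 1 ≤ g →
  (g : ℝ) ≤ (Real.log X) ^ B → (∀ p : ℕ, p.Prime → p ∣ K → p ∣ r → p ∣ g) →
  |∑ t ∈ (Icc 1 ⌊3 * X⌋₊).filter (fun t => t ≡ r [MOD K]), HH w k t * wd lam X t -
      (if r.Coprime K then mu lam * X / (Nat.totient K : ℝ) else 0)|
    ≤ X / K / (Real.log X) ^ A

/-- [NC hK] (uses GC M cl, tl, tt) Proof: word by word `GC/P/hr.lean` (doc comment [GC hr]) with `d^2 q` replaced by `K`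
and `q` by `g`: `P1` = the primes `p ≤ w` with `p ∣ K`, `p ∣ r`; they divide `g`, so `2^|P1| ≤ g ≤ L^B`, `|P1| ≤ 2 B log L ≤ k/2`;
`P2` = the primes `p ≤ w` with `p ∤ K`. The error is
`1000 L * L^B ((2X/K) e^(-k/2) + 4 X^(1/25)) ≤ (X/K)/(4 L^A)` as `K ≤ X^(1/20)`; `P1 = ∅` iff `r` is coprime to `K` (a common prime
divides `g`, so it is `≤ L^B ≤ w`). The `Pm` with `K0 ≥ 2A + 4B + 8` and the `K0` of `R_tl`. -/
def S_hK : Prop := GC.M.R_cl → GC.M.R_tl → GC.M.R_tt → R_hK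

/-- The classes which are not coprime to the modulus, with a phase. -/
def R_nc : Prop := ∀ A B : ℕ, ∃ K0 : ℕ, ∀ᶠ X : ℝ in atTop, ∀ w k : ℕ, Pm X (1 / 100) K0 w k →
  ∀ (K g s : ℕ) (β : ℝ), 1 ≤ K → (K : ℝ) ≤ X ^ (1 / 50 : ℝ) → 1 ≤ g → (g : ℝ) ≤ (Real.log X) ^ B →
  (∀ p : ℕ, p.Prime → p ∣ K → p ∣ s → p ∣ g) → ¬ s.Coprime K →
  ‖ES w k X K s β‖ ≤ X / K / (Real.log X) ^ A

/-- [NC nc] (uses GC M tl) Proof: let `p0` be a prime dividing `s` and `K`; `p0 ∣ g`, `p0 ≤ L^B ≤ w` (`K0 ≥ B`). Every `t ≡ s (K)` is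
divisible by `p0`, so `thP t = 0` if `tz (t/X) ≠ 0` (`t ≥ 0.9 X > p0`), and `W (dv t) (prs w) = 0`, so by `W_le_U`, `U_le_W_add_E`
(`k` even; `Combi.lean`) `|HH w k t| ≤ κ⁻¹ E (dv t) (prs w) (k+1) = κ⁻¹ ∑_S [∏ S ∣ t]`, `S` the sets of `k + 1` primes `≤ w`,
`κ = kapD w`. For `m = ∏ S`, if some `t ≡ s (K)` is divisible by `m`, then every common prime of `m` and `K` divides `s`, hence
`g`, so `gcd(m, K) ∣ g` (`m` squarefree), and the `t ≡ s (K)` with `m ∣ t` form one class modulo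
`lcm(K, m) = K m/gcd(K, m) ≥ K m/L^B`: at most `2X L^B/(K m) + 1` of them up to `2X`. `∑_S 1/m ≤ 2 e^(-k/2)` (first part of `R_tl`
with `c = 1`, `P = prs w`, `j = k, k + 1`, as in `TC/E/P/hl.lean`), the number of the `S` is at most `w^(k+1) ≤ X^(1/100)`,
`κ⁻¹ ≤ 1000 L`: total `≤ 1000 L ((2X L^B/K) 2 e^(-k/2) + X^(1/100)) ≤ (X/K)/L^A` for `K0 ≥ 2 (A + B + 4)`. -/
def S_nc : Prop := GC.M.R_tl → R_nc

/-! ### The final result of the section -/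

/-- The major arcs, on average over the moduli. -/
def R_maj : Prop := ∀ d c0 A b B : ℕ, 2 ≤ d → 1 ≤ c0 → ∃ K0 : ℕ, ∀ᶠ X : ℝ in atTop, ∀ w k : ℕ,
  Pm X (1 / 100) K0 w k → ∃ E : ℕ → ℝ, (∀ q, 0 ≤ E q) ∧
    (∀ (q l s : ℕ) (β : ℝ), Squarefree q → (q : ℝ) ≤ X ^ (1 / (100 * d : ℝ)) → 1 ≤ l →
      (l : ℝ) ≤ (Real.log X) ^ B → s.Coprime q → |β| ≤ (Real.log X) ^ B / X →
      ‖ES w k X (c0 * l * q ^ d) s β‖ ≤ E q) ∧
    ∑ q ∈ (Icc 1 ⌊X ^ (1 / (100 * d : ℝ))⌋₊).filter Squarefree,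
      (b : ℝ) ^ q.primeFactors.card * ((q : ℝ) ^ (d - 1) * E q) ≤ X / (Real.log X) ^ A

/-- [NC maj] (uses wt, bke, thc, hK, nc, GC M tz) Proof: `K = c0 l q^d ≤ c0 L^B X^(1/100) ≤ X^(1/50)`. `A1 = A + b + 3`; `E0` the `E` of
`GC.M.R_tz` for `A1`, `B`; `lam = L^E0`, `J` its set of `j`, `Y_j = exp(j/lam) ∈ [0.9 X, 1.1 X]`, `|J| ≤ 2 L^E0`. If `s` is coprime
to `K`: `R_tz` with `d := K`, `a := s`, `q := 1`, `b := 0`, `θ := β` (the phase is `ex 0 = 1`) and for each `j` `R_thc`, `R_hK`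
(`g = c0 l ≤ L^(B+1)`; the condition on `p` is void) at `Y_j` with `A2 = A1 + E0 + 4`: the main terms cancel and
`‖ES‖ ≤ ∑_j (1/φ(K)) (∑_{r ∣ K, r ≥ 2} pL lam Y_j r + Y_j/(log Y_j)^A2) + ∑_j (Y_j/K)/(log Y_j)^A2 + (X/K)/L^A1`. If `s` is not
coprime to `K`: a common prime of `s`, `K` does not divide `q`, so it divides `g = c0 l`, and `R_nc` with `A1`, `B + 1` applies.
`K/φ(K) ≤ 4L` (`inv_totient_le`). So `E q = ∑_{1 ≤ l ≤ L^B} (4L/(c0 l q^d)) ∑_j ∑_{r ∣ c0 l q^d, r ≥ 2} pL lam Y_j r + X/(q^d L^(A1-1))`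
works. Sum: the last terms give `≤ X/L^(A1-1) ∑ b^ω(q)/q ≤ X (1 + L)^b/L^(A+b+2)`. The first terms, with `q^(d-1)/(c0 l q^d) ≤ 1/q`,
exchanging the sums: `≤ 4L ∑_l ∑_j ∑_{2 ≤ r ≤ Z} pL lam Y_j r ∑_{q ≤ X, r ∣ c0 l q^d} b^ω(q)/q`, `Z = ⌊c0 L^B X^(1/100)⌋₊ ≤ Y_j^(1/12)`;
`R_wt` (`V = c0 l ≤ L^(B+1)`) and `R_bke` with `η = 1/(2d)` at `Y_j` with `A3 = A + b + 2B + E0 + 8`:
`≤ 4L * L^B * 2L^E0 * C (1 + L)^b L^(B+1) * 1.1 X 2^A3/L^A3`. `K0` = the maximum of those of `R_hK` (plus one, as it is applied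
at `Y_j`: `Pm X (1/100) K0 w k` implies `Pm Y_j (1/50) (K0 - 1) w k`, see the proof of `GC.M.S_MA`), `R_nc` and `1`. -/
def S_maj : Prop := R_wt → R_bke → R_thc → R_hK → R_nc → GC.M.R_tz → R_maj

end Pool.Agent.NC.J
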