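import Pool.Agent.Lib.MP_0da313_nt.NC.A

set_option autoImplicit false

/-!
Project NC, section M: the window, the densities, the model sum, the expansion of the error, the lower
bound for the sums with a prime member and the upper bound for the sum without primes.

Notation for the docstrings: `z = z0 D n'`, `κ z = kapD z = ∏_{p ≤ z} (1 - 1/p)`, `V = F.V n n'`,
`w = wN B1 N = ⌊(log N)^B1⌋₊`, `H = Hn d N`, `L l x = F.L n l x`, `X = F.X N = (s N)^(1/d)`, `lam = 1000 d E`,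
`wh x = F.wh N x = tri (lam * log (x/X))`, `m = mN F N`, `x0 = N^(1/d)`.
-/

namespace Pool.Agent.NC.M

open Finset Filter Polynomial
open Pool.Agent.MP89da58 (bil pw nn supp part kapD tri)
open Pool.Agent.MT (PJf dvI ZI)
open Pool.Agent.BVall (om PK lev RepB Dens)
open Pool.Agent.Lib.MP_0da313_nt (W)
open Pool.Agent.CH (thP)
open Pool.Agent.CM (wd z0)
open Pool.Agent.CM.F (Pre)
open Pool.Agent.TC (Lw wN)
open Pool.Agent.TC.W (qf)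
open Pool.Agent.NC.Q (prr nu qr od)
open Pool.Agent.NC.A (Cm DN rn ol sl Par3 Wt3)

/-! ### Definitions -/

/-- The mass of the window. -/
noncomputable def mN {ι : Type} [Fintype ι] [DecidableEq ι] {D d E : ℕ} (F : Fam ι D d E)
    (N : ℕ) : ℝ := ∑ x ∈ Icc 1 (Hn d N), F.wh N x

/-- The condition at the prime `p` for the member `l`: for `p ≤ w` the values `y` with `p ∣ G(y)`; for
`w < p ≤ z` in addition `p ∤ L_l(y)`. -/
def Q3 {ι : Type} [Fintype ι] [DecidableEq ι] {D d E : ℕ} (F : Fam ι D d E) (n w z : ℕ) (l : ι)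
    (p : ℕ) (y : ℤ) : Prop :=
  p ≤ z ∧ (p : ℤ) ∣ (F.G n).eval y ∧ (w < p → ¬ (p : ℤ) ∣ F.L n l y)

open Classical in
/-- The indicator function of the condition. -/
noncomputable def r3 {ι : Type} [Fintype ι] [DecidableEq ι] {D d E : ℕ} (F : Fam ι D d E)
    (n w z : ℕ) (l : ι) (y : ℤ) (p : ℕ) : ℝ := if Q3 F n w z l p y then 1 else 0

open Classical in
/-- The density of the condition. -/
noncomputable def d3 {ι : Type} [Fintype ι] [DecidableEq ι] {D d E : ℕ} (F : Fam ι D d E)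
    (n w z : ℕ) (l : ι) (p : ℕ) : ℝ := (om (Q3 F n w z l) p : ℝ) / p

/-! ### The window -/

/-- Location of the window. -/
def R_win : Prop := ∀ (ι : Type) [Fintype ι] [DecidableEq ι] (D d E : ℕ) (F : Fam ι D d E),
  (∀ l, 0 < F.t l) ∧ ∃ C : ℕ, 1 ≤ C ∧ ∀ᶠ N : ℕ in atTop, F.N0 ≤ N ∧
  ∀ n ∈ Ioc N (Bn E N), ∀ x : ℕ, 1 ≤ x → F.wh N x ≠ 0 →
  x ≤ Hn d N ∧ x < n ∧ x ^ d ≤ n ∧ ∀ l, (N : ℝ) ≤ C * F.L n l x ∧ (F.L n l x : ℝ) ≤ C * N ∧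
    |(F.L n l x : ℝ) / (F.t l * N) - 1| ≤ 1 / 100

/-- [NS win] Proof: `E t l ≥ |a l| + |c_l| ≥ 1` (`F.ht`, `F.ha`; `c_l = (g l).coeff d`), so `t l ≥ 1/E > 0`. If `wh ≠ 0` then
`|log (x/X)| < 1/lam`, `lam = 1000 d E`, so `x^d = s N e^δ` with `|δ| < 1/(1000 E)`; `x^d ≤ (1/2) e^(1/1000) N < N` gives
`x ≤ H`, `x^d ≤ n`, and `x < n` for large `N` (`d ≥ 2`). `g l (x) = c_l x^d + O(x^(d-1))` (the other coefficients), so
`L_l(x) = a l n + c_l s N + θ`, `|θ| ≤ |c_l| s N (e^(1/(1000E)) - 1) + C' N^((d-1)/d)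
≤ |c_l| N/(1900 E) + C' N^((d-1)/d)`, and `|a l (n - N)| ≤ |a l| N/(1000 E)`. Hence
`|L_l(x) - t l N| ≤ (|a l| + |c_l|) N/(1000 E) + C' N^((d-1)/d) ≤ t l N/1000 + C' N^((d-1)/d) ≤ t l N/100` for large `N`.
`C` natural with `C ≥ 2 E` and `C ≥ 2 t l` for all `l`. -/
def S_win : Prop := R_win

/-- The mass of the window and its distribution in residue classes. -/
def R_mas : Prop := ∀ (ι : Type) [Fintype ι] [DecidableEq ι] (D d E : ℕ) (F : Fam ι D d E),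
  ∀ᶠ N : ℕ in atTop, (∀ x, 0 ≤ F.wh N x ∧ F.wh N x ≤ 1) ∧
  (∀ q c : ℕ, 1 ≤ q → |∑ x ∈ (Icc 1 (Hn d N)).filter (fun x => x ≡ c [MOD q]), F.wh N x -
    (∑ x ∈ Icc 1 (Hn d N), F.wh N x) / q| ≤ 4) ∧
  (N : ℝ) ^ (1 / (d : ℝ)) ≤ 10000 * d * E * mN F N ∧ mN F N ≤ (N : ℝ) ^ (1 / (d : ℝ))

/-- [NS mas] Proof: `wh x = tri (lam log (x/X))` is increasing for `1 ≤ x ≤ X` and decreasing for `x ≥ X`, with
values in `[0, 1]` (`tri t = max 0 (1 - |t|)`). So its variation over `1, 2, ..., H` is at most `2`, and by partial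
summation with `|#{x ≤ t : x ≡ c (q)} - t/q| ≤ 1` the second claim holds with `3` instead of `4` (or: the sums
over two different classes modulo `q` differ by at most `2`, as the values interlace on both monotone
pieces). Third claim: for `|log (x/X)| ≤ 1/(2 lam)` `wh x ≥ 1/2`; these `x` are `≤ X e^(1/(2 lam)) ≤ N^(1/d)`
(`s ≤ 1/2`; so `x ≤ H`), and their number is at least `X (e^(1/(2 lam)) - e^(-1/(2 lam))) - 1 ≥ X/lam - 1`; so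
`m ≥ X/(2 lam) - 1/2`, `X = (s N)^(1/d) ≥ (N/4)^(1/d) ≥ N^(1/d)/2` (`d ≥ 2`), `lam = 1000 d E`:
`m ≥ N^(1/d)/(4000 d E) - 1/2 ≥ N^(1/d)/(10000 d E)` for large `N`. Fourth: `m ≤ H`. -/
def S_mas : Prop := R_mas

/-! ### Densities -/

/-- The densities. -/
def R_dn : Prop := ∀ (ι : Type) [Fintype ι] [DecidableEq ι] (D d E : ℕ) (F : Fam ι D d E), 1 ≤ D →
  ∀ᶠ N : ℕ in atTop, ∀ n ∈ Ioc N (Bn E N), ∀ n' w : ℕ, (Real.log N) ^ 2 ≤ w → w ≤ z0 D n' →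
  (∀ l (p : ℕ) (x y : ℤ), (p : ℤ) ∣ x - y →
    (Q3 F n w (z0 D n') l p x ↔ Q3 F n w (z0 D n') l p y)) ∧
  (∀ l (p : ℕ), p.Prime → (d3 F n w (z0 D n') l p) * p ≤ D) ∧
  (∀ l, Dens (2 * D) (d3 F n w (z0 D n') l)) ∧
  (∀ l, - (1 / 100) ≤ sl F n w (z0 D n') l →
    95 / 100 * (F.V n n' / kapD (z0 D n') * kapD w) ≤ W (d3 F n w (z0 D n') l) (PK (2 * D) n')) ∧
  (∀ l, W (d3 F n (z0 D n') (z0 D n') l) (PK (2 * D) n') = F.V n n') ∧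
  0 ≤ F.V n n' ∧ F.V n n' ≤ 1

/-- [NS dn] (uses A la) Proof: `F.N0 ≤ N`. Let `ω = om (p ∣ G)`, `ρ = ol F n l p`. `ω ≤ D` and `ω ≤ p - 1` (`hdeg`, `hloc`,
`card_roots_mod_le`); a root of `L_l` modulo `p` is a root of `G` (`F.hG`), so for `p ≤ z`: `om Q3 p = ω` if `p ≤ w`,
`om Q3 p = ω - ρ` if `w < p`; for `p > z` it is `0`. This gives the first three claims (`d3 p * p = om Q3 p`;
`Dens (2D)`: `0 ≤ om/p ≤ 1 - 1/p`, `≤ 2D/p`), the fifth (`Q3` with `w = z` is `p ∣ G` for `p ≤ z`, and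
`PK (2D) n'` consists of the primes `≤ z`), and the last two. Fourth claim: for a prime `w < p ≤ z`:
`1 - (ω - ρ)/p ≥ (1 - ω/p)(1 + ρ/p)`, so `W (d3) PK ≥ V ∏_{w < p ≤ z} (1 + ρ/p)`. By `R_la`, `ρ ≤ K1` (`w` is large), so
`log ∏ (1 + ρ/p) ≥ ∑ (ρ/p - ρ^2/p^2) ≥ sl + ∑ 1/p - K1^2/w ≥ -1/100 + ∑ 1/p - K1^2/w`
(`log (1+t) ≥ t - t^2` for `t ≥ 0`, `∑_{m > w} 1/m^2 ≤ 1/w`), and `∑_{w < p ≤ z} 1/p ≥ log (κ w/κ z) - 1/w` because
`- log (1 - t) ≤ t + t^2` for `0 ≤ t ≤ 1/2`. So `∏ (1 + ρ/p) ≥ (κ w/κ z) exp(-1/100 - (K1^2 + 1)/w) ≥ 0.95 κ w/κ z` for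
large `N` (`w ≥ (log N)^2`). -/
def S_dn : Prop := A.R_la → R_dn

/-! ### Pointwise inequalities -/

open Classical in
/-- Pointwise inequalities for the lower bound. -/
def R_pw : Prop := ∀ (ι : Type) [Fintype ι] [DecidableEq ι] (D d E : ℕ) (F : Fam ι D d E)
  (B0 B1 : ℕ), 1 ≤ D → 1 ≤ B0 → 3 ≤ B1 → ∀ᶠ N : ℕ in atTop,
  ∀ n ∈ Ioc N (Bn E N), ∀ (n' : ℕ) (P : Finset ℕ), Par3 F B0 N n' P →
  ((Real.log N) ^ 2 ≤ wN B1 N ∧ wN B1 N ≤ z0 D n') ∧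
  ∀ Fp Fm, Pre D n' Fp Fm → ∀ (l : ι) (x : ℕ), 1 ≤ x → F.wh N x ≠ 0 →
  (kapD (wN B1 N))⁻¹ * Fm (r3 F n (wN B1 N) (z0 D n') l x) ≤
    Lw (wN B1 N) (F.L n l x).toNat * Fm (r3 F n (wN B1 N) (z0 D n') l x) ∧
  thP (F.L n l x).toNat * Fm (r3 F n (wN B1 N) (z0 D n') l x) ≤
    if F.Rg n (z0 D n') x then thP (F.L n l x).toNat else 0

/-- [NS pw] (uses win) Proof: `w ≥ (log N)^3 - 1 ≥ (log N)^2`, `z ≥ N^(1/B0) ≥ (log N)^B1` for large `N`. By `R_win`,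
`L_l(x) ≥ N/C > z ≥ w` for large `N` (`z ≤ lev ≤ H^(1/10000)`, `Par3.hlev`, `z0_le_lev`). Let `ρ = r3 F n w z l x`; its values
are `0` or `1`, so `Fm ρ ≤ W ρ (PK (2D) n')` (`Pre.pt`), and `W ρ = 0` if `ρ p = 1` for some `p ∈ PK (2D) n'`.
First claim: if no prime `≤ w` divides `L_l(x)` then `Lw w _ = κ(w)^(-1)` and the two sides are equal. Otherwise
some prime `p ≤ w` divides `L_l(x)`, hence `G(x)` (`F.hG`, `F.N0 ≤ n`), so `ρ p = 1`, `Fm ρ ≤ 0`; the right side is `0`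
(`Lw = 0`) and the left side is `≤ 0`. Second claim: if `thP = 0` both sides are `0`. Otherwise `L_l(x)` is a prime
`> z`, no prime `p ≤ z` divides it, so `ρ p = 1` iff `p ∣ G(x)`. If `Rg`: `Fm ρ ≤ W ρ ≤ 1`. If not: `Fm ρ ≤ 0`. -/
def S_pw : Prop := R_win → R_pw

/-! ### The model sum -/

/-- The lower bound for the model sum. -/
def R_md : Prop := ∀ (ι : Type) [Fintype ι] [DecidableEq ι] [Nonempty ι] (D d E : ℕ)
  (F : Fam ι D d E) (B0 B B1 A : ℕ), 1 ≤ D → 1 ≤ B0 → 3 ≤ B1 → ∀ᶠ N : ℕ in atTop,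
  ∀ n ∈ Ioc N (Bn E N), ∀ (n' : ℕ) (P : Finset ℕ), Par3 F B0 N n' P → ∀ Fp Fm, Pre D n' Fp Fm →
  ∀ (l : ι) (g : (PJf P → Option ι) → ℝ), Wt3 d N B g → 0 ≤ qr (rn F P n) g →
  - (1 / 100) ≤ sl F n (wN B1 N) (z0 D n') l →
  9 / 10 * (mN F N * (F.V n n' / kapD (z0 D n'))) * qr (rn F P n) g -
      (N : ℝ) ^ (1 / (d : ℝ)) / (Real.log N) ^ A ≤
    ∑ x ∈ Icc 1 (Hn d N), F.wh N x * (Lw (wN B1 N) (F.L n l x).toNat *
      (Fm (r3 F n (wN B1 N) (z0 D n') l x) * ZI (DN F P n) g x ^ 2))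

/-- [NS md] (uses A la, mas, dn, pw, Q gn) Proof: by the first claim of `R_pw`, `wh ≥ 0`, `ZI^2 ≥ 0` (terms with `wh = 0`
vanish) the sum is at least `κ(w)^(-1) ∑_x wh x Fm (r3 ..) ZI^2`. `R_gn` with `P1 = PK (2D) n'` (disjoint from `P`:
`p ≤ z` and `p > z`), `Dd = DN F P n`, `Q = Q3 F n w z l`, `h = F.wh N`, `M = H`, `e = 4` (`R_mas`), `K0` = the maximum of `D` and
the `K1` of `R_la`, `Y0 = lev^3`, `Y = ⌊H^(1/10000)⌋₊`: the sum is `m * Fm (d3) * qr (rn F P n) g` with an error at most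
`12 B^2 ∑_{q ≤ Y^2 Y0 squarefree} (6 |ι| K0)^ω(q) ≤ 12 B^2 Q (1 + log Q)^(6|ι|K0)`, `Q ≤ H^(3/10000)`: at most `N^(1/(2d))`
for large `N`; times `κ(w)^(-1) ≤ 1000 log w ≤ log N` (`mertens`, `MT/Mertens.lean`) still `≤ x0/(log N)^A`. Main term:
`Fm (d3) ≥ 0.999 W (d3)` (`Pre.mt`, `Dens`; `Fm` only depends on the values on `PK`), `W (d3) ≥ 0.95 V κ(w)/κ(z)`
(`R_dn`), `m ≥ 0`, `qr ≥ 0`: `κ(w)^(-1) m 0.999 * 0.95 V κ(w)/κ(z) qr ≥ 0.9 ..`. (`od`, `rn`: `rn F P n j l = od/j` by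
definition.) -/
def S_md : Prop := A.R_la → R_mas → R_dn → R_pw → Q.R_gn → R_md

/-! ### The expansion of the error -/

/-- The expansion of the difference between the prime sum and the model sum. -/
def R_ex : Prop := ∀ (ι : Type) [Fintype ι] [DecidableEq ι] [Nonempty ι] (D d E : ℕ)
  (F : Fam ι D d E) (B0 B B1 : ℕ), 1 ≤ D → 1 ≤ B0 → 3 ≤ B1 → ∀ᶠ N : ℕ in atTop,
  ∀ n ∈ Ioc N (Bn E N), ∀ (n' : ℕ) (P : Finset ℕ), Par3 F B0 N n' P → ∀ Fp Fm, Pre D n' Fp Fm →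
  ∀ (l : ι) (g : (PJf P → Option ι) → ℝ), Wt3 d N B g → (∀ α, g α ≠ 0 → ∀ j, α j ≠ some l) →
  |∑ x ∈ Icc 1 (Hn d N), F.wh N x * ((thP (F.L n l x).toNat - Lw (wN B1 N) (F.L n l x).toNat) *
      (Fm (r3 F n (wN B1 N) (z0 D n') l x) * ZI (DN F P n) g x ^ 2))| ≤
    3 * B ^ 2 * ErS F N (wN B1 N) n (6 * Fintype.card ι) l

/-- [NS ex] (uses A la, win, Q nu, CM G es1) Proof: the first claim of `R_nu` with `D = DN F P n` (exclusive),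
`ω x = wh x (thP - Lw) Fm (r3 .. x)`: the sum is `∑_γ nu g γ ∑_x [dvI (DN ..) x γ] ω x`. Let `nu g γ ≠ 0`: then
`γ j ≠ some l` for all `j`, `nn (supp γ) ≤ Y Y`, `Y = ⌊H^(1/10000)⌋₊`, `|nu g γ| ≤ B^2 3^|supp γ|`. Write
`Fm ρ = ∑_T c_T ∏_{p ∈ T} ρ p`, `|c_T| ≤ 1`, `T ⊆ PK (2D) n'`, `∏ T ≤ lev^3` if `c_T ≠ 0` (`Pre.rm`). For one `T` let
`q = ∏ T * nn (supp γ)`, squarefree (the primes of `P` are `> z`). The condition ``Q3` at all `p ∈ T`, and `dvI x γ`` is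
periodic modulo `q`; the sum over the `x` satisfying it is the sum over the classes `c ∈ range q` satisfying it
of `Er F N w n l q c`. Such a `c` satisfies `q ∣ G(c)` (for `p ∈ T` by `Q3`; for `j ∈ supp γ`, `γ j = some k`: `j ∣ L_k(c) ∣ G(c)`).
If `L_l(c)` is coprime to `q` then `c ∈ Cq F n q l`. Otherwise a prime `p ∣ q` divides `L_l(c)`; it is not in the support
of `γ` (`γ p = some k`, `k ≠ l`, and `p ∣ L_k(c)`, `p ∣ L_l(c)` would give `Cm F n p`), so `p ∈ T`, and by `Q3` it is `≤ w`: then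
`Er = 0`, because for every `x ≡ c (q)`, `x ≥ 1`, with `wh ≠ 0`: `p ∣ L_l(x)`, so `Lw w (L_l x) = 0`, and `thP (L_l x) = 0`
(`L_l(x) ≥ N/C > w ≥ p` by `R_win`, so `L_l(x)` is not a prime). So the inner sum for `γ` is at most
`∑_T E(q)`, `E(q) = ∑_{c ∈ Cq F n q l} |Er F N w n l q c|`. Sum over `γ` (last claim of `R_nu`) and `CM.G.R_es1` (`c = 3|ι|`,
`K0 = 1`, `P1 = PK`, `Y0 = lev^3`): the total is at most `B^2 * 3 ∑_{q ≤ Y Y Y0, squarefree} (6|ι|)^ω(q) E(q)`, and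
`Y^2 Y0 ≤ H^(3/10000) ≤ N^(1/(1000 d))` for large `N`. (`ErS` is the sum over all squarefree `q ≤ N^(1/(1000 d))`, all
terms `≥ 0`; `w ≤ z < N/C` as in `R_pw`.) -/
def S_ex : Prop := A.R_la → R_win → Q.R_nu → CM.G.R_es1 → R_ex

/-! ### The two kinds of sums -/

open Classical in
/-- The lower bound for the sum with the prime member `l`. -/
def R_T : Prop := ∀ (ι : Type) [Fintype ι] [DecidableEq ι] [Nonempty ι] (D d E : ℕ)
  (F : Fam ι D d E) (B0 B B1 A : ℕ), 1 ≤ D → 1 ≤ B0 → 3 ≤ B1 → ∀ᶠ N : ℕ in atTop,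
  ∀ n ∈ Ioc N (Bn E N), ∀ (n' : ℕ) (P : Finset ℕ), Par3 F B0 N n' P → ∀ Fp Fm, Pre D n' Fp Fm →
  ∀ (l : ι) (g : (PJf P → Option ι) → ℝ), Wt3 d N B g → (∀ α, g α ≠ 0 → ∀ j, α j ≠ some l) →
  0 ≤ qr (rn F P n) g → - (1 / 100) ≤ sl F n (wN B1 N) (z0 D n') l →
  9 / 10 * (mN F N * (F.V n n' / kapD (z0 D n'))) * qr (rn F P n) g -
      (N : ℝ) ^ (1 / (d : ℝ)) / (Real.log N) ^ A -
      3 * B ^ 2 * ErS F N (wN B1 N) n (6 * Fintype.card ι) l ≤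
    ∑ x ∈ (Icc 1 (Hn d N)).filter (fun x : ℕ => F.Rg n (z0 D n') x),
      F.wh N x * (thP (F.L n l x).toNat * ZI (DN F P n) g x ^ 2)

/-- [NS T] (uses mas, pw, md, ex) Proof: by the second claim of `R_pw` (`wh ≥ 0`, `ZI^2 ≥ 0`), for each `x ≥ 1`:
`wh thP Fm (r3) ZI^2 ≤ [Rg] wh thP ZI^2`. Sum over `x`: the right side is at least
`∑_x wh thP (Fm ZI^2)`, which is the sum in `R_md` plus the sum in `R_ex` (without absolute value). -/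
def S_T : Prop := R_mas → R_pw → R_md → R_ex → R_T

open Classical in
/-- The upper bound for the sum without primes. -/
def R_S : Prop := ∀ (ι : Type) [Fintype ι] [DecidableEq ι] [Nonempty ι] (D d E : ℕ)
  (F : Fam ι D d E) (B0 B A : ℕ), 1 ≤ D → 1 ≤ B0 → ∀ᶠ N : ℕ in atTop,
  ∀ n ∈ Ioc N (Bn E N), ∀ (n' : ℕ) (P : Finset ℕ), Par3 F B0 N n' P → ∀ Fp Fm, Pre D n' Fp Fm →
  ∀ g : (PJf P → Option ι) → ℝ, Wt3 d N B g → 0 ≤ qr (rn F P n) g →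
  ∑ x ∈ (Icc 1 (Hn d N)).filter (fun x : ℕ => F.Rg n (z0 D n') x),
      F.wh N x * ZI (DN F P n) g x ^ 2 ≤
    1001 / 1000 * (mN F N * F.V n n') * qr (rn F P n) g +
      (N : ℝ) ^ (1 / (d : ℝ)) / (Real.log N) ^ A

/-- [NS S] (uses A la, mas, dn, Q gn) Proof: fix some `l : ι`, `w = z = z0 D n'` (`≥ (log N)^2` for large `N`, as
`z ≥ N^(1/B0)`). `[Rg] ≤ Fp (r3 F n z z l x)`: if `Rg` then all `r3 p = 0` (`p ≤ z` prime; and `r3 p` for the `p ∈ PK`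
only), so `W = 1 ≤ Fp` (`Pre.pt`); in general `Fp ≥ W ≥ 0`. So the left side is at most
`∑_{x ∈ Icc 1 H} wh x Fp (r3) ZI^2`, which by `R_gn` (as in `md`, `Ff = Fp`) is `m Fp (d3) qr (rn F P n) g` with an error at
most `x0/(log N)^A`; `Fp (d3) ≤ 1.001 W (d3) = 1.001 V` (`Pre.mt`, `R_dn`), `m ≥ 0`, `qr ≥ 0`. -/
def S_S : Prop := A.R_la → R_mas → R_dn → Q.R_gn → R_S

/-- The size of the weights at the points without small prime factors. -/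
def R_wm : Prop := ∀ (ι : Type) [Fintype ι] [DecidableEq ι] [Nonempty ι] (D d E : ℕ)
  (F : Fam ι D d E) (B0 B : ℕ), 1 ≤ D → 1 ≤ B0 → ∀ᶠ N : ℕ in atTop,
  ∀ n ∈ Ioc N (Bn E N), ∀ (n' : ℕ) (P : Finset ℕ), Par3 F B0 N n' P →
  ∀ g : (PJf P → Option ι) → ℝ, (∀ α, |g α| ≤ B) → ∀ x : ℕ, 1 ≤ x → F.wh N x ≠ 0 →
  F.Rg n (z0 D n') x → (∀ l, thP (F.L n l x).toNat ≤ 2 * Real.log N) ∧
  ZI (DN F P n) g x ^ 2 ≤ (2 ^ (Fintype.card ι * (B0 + 1)) * (B : ℝ)) ^ 2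

/-- [NS wm] (uses win) Proof: as `CM/P/wm.lean` and `TC/P/wm2.lean`. For `l : ι`, `m = L_l(x)` satisfies `0 < m ≤ C N`
(`R_win`) and `m ∣ G(x)` (`F.hG`), so it has no prime factor `≤ z`, and at most `B0 + 1` prime factors
(`z^(B0+2) ≤ m ≤ C N ≤ C z^B0` is impossible for large `N`); the `j ∈ P` with `DN F P n j l x` divide `m`
(`card_dvd_le`); `abs_ZI_le` (`MT/Zb.lean`). `thP m ≤ log m ≤ log (C N) ≤ 2 log N`. -/
def S_wm : Prop := R_win → R_wm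

end Pool.Agent.NC.M
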