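import Pool.Agent.Lib.MP_0da313_nt.TC.Main
import Pool.Agent.Lib.MP_0da313_nt.NC.F
import Pool.Agent.Lib.MP_0da313_nt.NC.R.nu
import Pool.Agent.Lib.MP_0da313_nt.NC.R.qp
import Pool.Agent.Lib.MP_0da313_nt.NC.R.cr
import Pool.Agent.Lib.MP_0da313_nt.NC.R.gn
import Pool.Agent.Lib.MP_0da313_nt.NC.R.la
import Pool.Agent.Lib.MP_0da313_nt.NC.R.v1
import Pool.Agent.Lib.MP_0da313_nt.NC.R.v2
import Pool.Agent.Lib.MP_0da313_nt.NC.R.gq
import Pool.Agent.Lib.MP_0da313_nt.NC.R.gs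
import Pool.Agent.Lib.MP_0da313_nt.NC.R.win
import Pool.Agent.Lib.MP_0da313_nt.NC.R.mas
import Pool.Agent.Lib.MP_0da313_nt.NC.R.dn
import Pool.Agent.Lib.MP_0da313_nt.NC.R.pw
import Pool.Agent.Lib.MP_0da313_nt.NC.R.md
import Pool.Agent.Lib.MP_0da313_nt.NC.R.ex
import Pool.Agent.Lib.MP_0da313_nt.NC.R.T
import Pool.Agent.Lib.MP_0da313_nt.NC.R.S
import Pool.Agent.Lib.MP_0da313_nt.NC.R.wm
import Pool.Agent.Lib.MP_0da313_nt.NC.R.sy
import Pool.Agent.Lib.MP_0da313_nt.NC.R.nm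
import Pool.Agent.Lib.MP_0da313_nt.NC.R.cn
import Pool.Agent.Lib.MP_0da313_nt.NC.R.fm
import Pool.Agent.Lib.MP_0da313_nt.NC.R.fin

set_option autoImplicit false

/-!
Project NC: the assembly of the sieve part.
-/

namespace Pool.Agent.NC

/-! ### Section Q -/

namespace Q

theorem h_nu : R_nu := p_nu

theorem h_qp : R_qp := p_qp

theorem h_cr : R_cr := p_cr

theorem h_gn : R_gn := p_gn h_nu h_cr CM.G.h_es1

end Q

/-! ### Section A -/

namespace A

theorem h_la : R_la := p_la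

theorem h_v1 : R_v1 := p_v1 Q.h_cr

theorem h_v2 : R_v2 := p_v2 Q.h_nu h_v1

theorem h_gq : R_gq := p_gq h_la h_v2 CM.W.h_pr

theorem h_gs : R_gs := p_gs h_la Q.h_cr

end A

/-! ### Section M -/

namespace M

theorem h_win : R_win := p_win

theorem h_mas : R_mas := p_mas

theorem h_dn : R_dn := p_dn A.h_la

theorem h_pw : R_pw := p_pw h_win

theorem h_md : R_md := p_md A.h_la h_mas h_dn h_pw Q.h_gn

theorem h_ex : R_ex := p_ex A.h_la h_win Q.h_nu CM.G.h_es1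

theorem h_T : R_T := p_T h_mas h_pw h_md h_ex

theorem h_S : R_S := p_S A.h_la h_mas h_dn Q.h_gn

theorem h_wm : R_wm := p_wm h_win

end M

/-! ### Section F -/

namespace F

theorem h_sy : R_sy := p_sy TC.W.h_wpg

theorem h_nm : R_nm := p_nm

theorem h_cn : R_cn :=
  p_cn h_nm A.h_la Q.h_qp M.h_win M.h_mas M.h_dn M.h_pw M.h_T M.h_S M.h_wm CM.S.h_pre

theorem h_fm : R_fm := p_fm TC.F.p_pe

/-- The final theorem, from the interface. -/
theorem h_fin (h_EX : NC.R_EX) : R_fin :=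
  p_fin h_EX h_sy h_cn h_fm A.h_gq A.h_gs M.h_win TC.F.p_bk

end F

end Pool.Agent.NC
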