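import Pool.Agent.Lib.MP_0da313_nt.NC.Defs
import Pool.Agent.Lib.MP_0da313_nt.TC.W
import Pool.Agent.Lib.MP_0da313_nt.CM.F

set_option autoImplicit false

/-!
Project NC, section Q: the quadratic forms with general densities, and the general expansion over the
integers `x`.

`dvI D y γ`: all the local conditions `D j l y`, `γ j = some l`, hold; `ZI D g y = ∑_α [dvI D y α] g α`
(`MT/ExpandI.lean`); `supp α` is the set of the `j` with `α j ≠ none`, `compat α β`: `α j`, `β j` agree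
whenever both are not `none`, `join α β` is the common extension, `pw x a = ∏_{j ∈ a} x j`,
`nn p a = ∏_{j ∈ a} p j`, `bil x f g = ∑_{α, β} f α g β ∏_j kap (x j) (α j) (β j)` (`Lib/MP_89da58_nt`).
-/

namespace Pool.Agent.NC.Q

open Finset Filter Polynomial
open Pool.Agent.MP89da58 (bil pw nn supp part join compat kapD)
open Pool.Agent.MT (PJf dvI ZI)
open Pool.Agent.BVall (om PK RepB)

/-- The product of the densities prescribed by `γ`. -/
noncomputable def prr {ι J : Type} [Fintype J] (r : J → ι → ℝ) (γ : J → Option ι) : ℝ :=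
  ∏ j, (γ j).elim 1 (r j)

open Classical in
/-- The coefficients of the square of the sieve sum. -/
noncomputable def nu {ι J : Type} [Fintype ι] [DecidableEq ι] [Fintype J] [DecidableEq J]
    (g : (J → Option ι) → ℝ) (γ : J → Option ι) : ℝ :=
  ∑ α : J → Option ι, ∑ β : J → Option ι, if compat α β ∧ join α β = γ then g α * g β else 0

/-- The quadratic form with the densities `r`. -/
noncomputable def qr {ι J : Type} [Fintype ι] [DecidableEq ι] [Fintype J] [DecidableEq J]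
    (r : J → ι → ℝ) (g : (J → Option ι) → ℝ) : ℝ := ∑ γ : J → Option ι, nu g γ * prr r γ

open Classical in
/-- The properties of the coefficients. -/
def R_nu : Prop := ∀ (ι J : Type) [Fintype ι] [DecidableEq ι] [Fintype J] [DecidableEq J]
  (g : (J → Option ι) → ℝ),
  (∀ D : J → ι → ℤ → Prop, (∀ j l l' y, l ≠ l' → ¬ (D j l y ∧ D j l' y)) →
    ∀ (s : Finset ℕ) (ω : ℕ → ℝ), ∑ x ∈ s, ω x * ZI D g (x : ℤ) ^ 2 =
      ∑ γ : J → Option ι, nu g γ * ∑ x ∈ s, if dvI D (x : ℤ) γ then ω x else 0) ∧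
  (∀ B : ℝ, (∀ α, |g α| ≤ B) → ∀ γ, |nu g γ| ≤ B ^ 2 * 3 ^ (supp γ).card) ∧
  (∀ γ, nu g γ ≠ 0 → ∃ α β, g α ≠ 0 ∧ g β ≠ 0 ∧ supp γ = supp α ∪ supp β ∧
    ∀ j i, γ j = some i → α j = some i ∨ β j = some i) ∧
  (∀ x : J → ℝ, bil x g g = ∑ γ : J → Option ι, nu g γ * pw x (supp γ)) ∧
  ∀ f : Finset J → ℝ, ∑ γ : J → Option ι, f (supp γ) =
    ∑ a : Finset J, (Fintype.card ι : ℝ) ^ a.card * f a

/-- [NS nu] Proof: for any `h`, `∑_γ nu g γ * h γ = ∑_{α, β} [compat α β] g α g β h (join α β)` (exchange the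
sums). First claim: expand the square; `dvI D y α ∧ dvI D y β ↔ dvI D y (join α β)` for compatible `α, β`
(`dvI_and_iff`), and for incompatible ones both conditions cannot hold (as in the proof of `quad_expandI`,
`MT/ExpandI.lean`). Second: for given `γ`, the compatible pairs with `join α β = γ` are determined by the
choice, for each `j` in the support, of one of `(γ j, none), (none, γ j), (γ j, γ j)`: at most
`3^|supp γ|` pairs (compare `card_pairs_le`, `supp_join`). Third: some pair gives a nonzero term. Fourth: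
`prod_kap_compat`, `prod_kap_not_compat` (as in `quad_expandI`). Fifth: the `γ` with support `a` correspond to
the maps `a → ι` (`Finset.sum_fiberwise`, `Fintype.card_fun`, or `Fintype.piFinset`). -/
def S_nu : Prop := R_nu

/-- Positivity. -/
def R_qp : Prop := ∀ (ι J : Type) [Fintype ι] [DecidableEq ι] [Fintype J] [DecidableEq J]
  (r : J → ι → ℝ) (g : (J → Option ι) → ℝ), (∀ j l, 0 ≤ r j l) → (∀ j, ∑ l, r j l ≤ 1) →
  0 ≤ qr r g

/-- [NS qp] Proof: let `u : J → Option ι` be random with independent components, `P(u j = some l) = r j l`,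
`P(u j = none) = 1 - ∑_l r j l ≥ 0`. Then `prr r γ = ∑_u P(u) [u j = γ j for all j ∈ supp γ]`, and
`∑_γ nu g γ [u = γ on supp γ] = ∑_{α, β} [compat] g α g β [u = join α β on its support] = (∑_α [u = α on supp α] g α)^2`
(two assignments which both agree with `u` on their supports are compatible). So
`qr r g = ∑_u P(u) (..)^2 ≥ 0`. (`∑_u ∏_j w_j(u j) h_j(u j) = ∏_j ∑_o w_j(o) h_j(o)`: `Finset.prod_univ_sum`,
`Fintype.piFinset_univ`. Compare `bil_bounds`, `wt` in `Lib/MP_89da58_nt`, for constant densities.) -/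
def S_qp : Prop := R_qp

/-- Independence of the residue classes modulo different primes. -/
def R_cr : Prop := ∀ T : Finset ℕ, (∀ p ∈ T, p.Prime) → ∀ f : ℕ → ℕ → ℝ,
  (∀ p ∈ T, ∀ n n' : ℕ, n ≡ n' [MOD p] → f p n = f p n') →
  ∑ n ∈ range (∏ p ∈ T, p), ∏ p ∈ T, f p n = ∏ p ∈ T, ∑ n ∈ range p, f p n

/-- [NS cr] Proof: induction on `T`; for coprime `a, b` and `F` periodic modulo `a`, `G` periodic modulo `b`:
`∑_{n < a b} F n G n = (∑_{n < a} F n) (∑_{n < b} G n)` by the bijection `n ↦ (n % a, n % b)`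
(`Nat.chineseRemainder`, `ZMod.chineseRemainder`; compare `sum_classes`, `count_primes` in
`BV/Classes.lean`). -/
def S_cr : Prop := R_cr

open Classical in
/-- The number of classes modulo `j` satisfying the condition `Dd j l`. -/
noncomputable def od {ι : Type} {P : Finset ℕ} (Dd : PJf P → ι → ℤ → Prop) (j : PJf P) (l : ι) : ℕ :=
  ((range (j : ℕ)).filter (fun y : ℕ => Dd j l (y : ℤ))).card

open Classical in
/-- The general expansion over the integers. -/
def R_gn : Prop := ∀ (ι : Type) [Fintype ι] [DecidableEq ι] [Nonempty ι] (P P1 : Finset ℕ)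
  (Dd : PJf P → ι → ℤ → Prop) (Q : ℕ → ℤ → Prop) (K0 : ℕ), (∀ p ∈ P, p.Prime) →
  (∀ p ∈ P1, p.Prime) → Disjoint P P1 → 1 ≤ K0 →
  (∀ (j : PJf P) (l : ι) (x y : ℤ), ((j : ℕ) : ℤ) ∣ x - y → (Dd j l x ↔ Dd j l y)) →
  (∀ j l l' y, l ≠ l' → ¬ (Dd j l y ∧ Dd j l' y)) → (∀ j l, od Dd j l ≤ K0) →
  (∀ (p : ℕ) (x y : ℤ), (p : ℤ) ∣ x - y → (Q p x ↔ Q p y)) → (∀ p ∈ P1, om Q p ≤ K0) →
  ∀ (Y0 : ℕ) (Ff : (ℕ → ℝ) → ℝ), RepB P1 (fun T => ∏ p ∈ T, p ≤ Y0) Ff →
  ∀ (h : ℕ → ℝ) (M : ℕ) (e : ℝ),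
  (∀ q c : ℕ, 1 ≤ q → |∑ x ∈ (Icc 1 M).filter (fun x => x ≡ c [MOD q]), h x -
    (∑ x ∈ Icc 1 M, h x) / q| ≤ e) →
  ∀ (g : (PJf P → Option ι) → ℝ) (B : ℝ) (Y : ℕ), (∀ α, |g α| ≤ B) →
  (∀ α, g α ≠ 0 → nn (fun j : PJf P => (j : ℕ)) (supp α) ≤ Y) →
  |∑ x ∈ Icc 1 M, h x * Ff (fun p => if Q p (x : ℤ) then (1 : ℝ) else 0) * ZI Dd g (x : ℤ) ^ 2 -
    (∑ x ∈ Icc 1 M, h x) * Ff (fun p => (om Q p : ℝ) / p) *
      qr (fun (j : PJf P) l => (od Dd j l : ℝ) / ((j : ℕ) : ℝ)) g| ≤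
  3 * B ^ 2 * e * ∑ q ∈ (Icc 1 (Y * Y * Y0)).filter Squarefree,
    ((6 * Fintype.card ι * K0 : ℕ) : ℝ) ^ q.primeFactors.card

/-- [NS gn] (uses nu, cr, CM G es1) Proof: by `R_nu` (first claim, `ω x = h x * Ff (..)`) the sum is
`∑_γ nu g γ ∑_x [dvI Dd x γ] ω x`, and `qr = ∑_γ nu g γ prr r γ`. Write `Ff ρ = ∑_{T ⊆ P1} c_T ∏_{p ∈ T} ρ p` with
`|c_T| ≤ 1`, `∏ T ≤ Y0` if `c_T ≠ 0` (definition of `RepB`, `BV/Hooley.lean`). For fixed `γ`, `T` (always
`T ∩ sp γ = ∅`, as `P`, `P1` are disjoint) let `q = ∏ T * nn (supp γ)`, squarefree, `q ≤ Y Y Y0` (third claim of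
`R_nu`: `supp γ = supp α ∪ supp β`, `nn_union_le`). The condition ``Q p x` for all `p ∈ T`, and `dvI Dd x γ`` is
periodic modulo `q`; the number of the classes `c ∈ range q` satisfying it is
`∏_{p ∈ T} om Q p * ∏_{j ∈ supp γ} od Dd j (γ j) ≤ K0^(|T| + |supp γ|)` (`R_cr` for the indicator functions), so the sum
of `h` over the `x` satisfying it is `(∑ h) ∏_{T} (om Q p/p) prr r γ` with an error at most
`K0^(|T|+|supp γ|) e`. Total error: `B^2 ∑_γ 3^|supp γ| [nn (supp γ) ≤ Y Y] ∑_T K0^(|T|+|supp γ|) e`, and by the last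
claim of `R_nu` and `CM.G.R_es1` (`c = 3 |ι|`, `E q = e`; it has an additional factor `3`) this is at most the
right side. (`e ≥ 0`.) -/
def S_gn : Prop := R_nu → R_cr → CM.G.R_es1 → R_gn

end Pool.Agent.NC.Q
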